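import Pool.Agent.H81.JV.Transfer
import Mathlib.Algebra.CharP.Basic

/-! # A nilpotent algebra `B16` of dimension 16 in characteristic 3 and its cover -/

set_option linter.unusedSectionVars false

namespace Pool.Agent.H81.JV

universe u v w

/-- the algebra with 16 coordinates -/
@[ext]
structure B16 (K : Type u) where
  b0 : K
  b1 : K
  b2 : K
  b3 : K
  b4 : K
  b5 : K
  b6 : K
  b7 : K
  b8 : K
  b9 : K
  b10 : K
  b11 : K
  b12 : K
  b13 : K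
  b14 : K
  b15 : K

namespace B16

variable {K : Type u} [Field K]

instance : Zero (B16 K) := ⟨⟨0, 0, 0, 0, 0, 0, 0, 0, 0, 0, 0, 0, 0, 0, 0, 0⟩⟩
instance : Add (B16 K) := ⟨fun x y => ⟨x.b0 + y.b0, x.b1 + y.b1, x.b2 + y.b2, x.b3 + y.b3, x.b4 + y.b4, x.b5 + y.b5, x.b6 + y.b6, x.b7 + y.b7, x.b8 + y.b8, x.b9 + y.b9, x.b10 + y.b10, x.b11 + y.b11, x.b12 + y.b12, x.b13 + y.b13, x.b14 + y.b14, x.b15 + y.b15⟩⟩
instance : Neg (B16 K) := ⟨fun x => ⟨-x.b0, -x.b1, -x.b2, -x.b3, -x.b4, -x.b5, -x.b6, -x.b7, -x.b8, -x.b9, -x.b10, -x.b11, -x.b12, -x.b13, -x.b14, -x.b15⟩⟩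
instance : Mul (B16 K) := ⟨fun x y => ⟨0,
  0,
  0,
  x.b0 * y.b1 + x.b1 * y.b0,
  -x.b1 * y.b1,
  -x.b0 * y.b2 - x.b2 * y.b0,
  -x.b2 * y.b2,
  x.b0 * y.b4 + x.b4 * y.b0,
  x.b1 * y.b5 + x.b5 * y.b1,
  x.b2 * y.b3 + x.b3 * y.b2,
  x.b2 * y.b4 + x.b4 * y.b2,
  x.b0 * y.b6 + x.b6 * y.b0,
  -x.b1 * y.b6 - x.b6 * y.b1,
  -x.b0 * y.b10 + x.b1 * y.b9 + x.b9 * y.b1 - x.b10 * y.b0,
  -x.b0 * y.b12 + x.b2 * y.b8 + x.b8 * y.b2 - x.b12 * y.b0,
  -x.b1 * y.b14 - x.b2 * y.b13 - x.b3 * y.b12 - x.b4 * y.b11 + x.b5 * y.b10 + x.b6 * y.b7 + x.b7 * y.b6 + x.b10 * y.b5 - x.b11 * y.b4 - x.b12 * y.b3 - x.b13 * y.b2 - x.b14 * y.b1⟩⟩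

@[simp] theorem zero_b0 : (0 : B16 K).b0 = 0 := rfl
@[simp] theorem zero_b1 : (0 : B16 K).b1 = 0 := rfl
@[simp] theorem zero_b2 : (0 : B16 K).b2 = 0 := rfl
@[simp] theorem zero_b3 : (0 : B16 K).b3 = 0 := rfl
@[simp] theorem zero_b4 : (0 : B16 K).b4 = 0 := rfl
@[simp] theorem zero_b5 : (0 : B16 K).b5 = 0 := rfl
@[simp] theorem zero_b6 : (0 : B16 K).b6 = 0 := rfl
@[simp] theorem zero_b7 : (0 : B16 K).b7 = 0 := rfl
@[simp] theorem zero_b8 : (0 : B16 K).b8 = 0 := rfl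
@[simp] theorem zero_b9 : (0 : B16 K).b9 = 0 := rfl
@[simp] theorem zero_b10 : (0 : B16 K).b10 = 0 := rfl
@[simp] theorem zero_b11 : (0 : B16 K).b11 = 0 := rfl
@[simp] theorem zero_b12 : (0 : B16 K).b12 = 0 := rfl
@[simp] theorem zero_b13 : (0 : B16 K).b13 = 0 := rfl
@[simp] theorem zero_b14 : (0 : B16 K).b14 = 0 := rfl
@[simp] theorem zero_b15 : (0 : B16 K).b15 = 0 := rfl
@[simp] theorem add_b0 (x y : B16 K) : (x + y).b0 = x.b0 + y.b0 := rfl
@[simp] theorem add_b1 (x y : B16 K) : (x + y).b1 = x.b1 + y.b1 := rfl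
@[simp] theorem add_b2 (x y : B16 K) : (x + y).b2 = x.b2 + y.b2 := rfl
@[simp] theorem add_b3 (x y : B16 K) : (x + y).b3 = x.b3 + y.b3 := rfl
@[simp] theorem add_b4 (x y : B16 K) : (x + y).b4 = x.b4 + y.b4 := rfl
@[simp] theorem add_b5 (x y : B16 K) : (x + y).b5 = x.b5 + y.b5 := rfl
@[simp] theorem add_b6 (x y : B16 K) : (x + y).b6 = x.b6 + y.b6 := rfl
@[simp] theorem add_b7 (x y : B16 K) : (x + y).b7 = x.b7 + y.b7 := rfl
@[simp] theorem add_b8 (x y : B16 K) : (x + y).b8 = x.b8 + y.b8 := rfl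
@[simp] theorem add_b9 (x y : B16 K) : (x + y).b9 = x.b9 + y.b9 := rfl
@[simp] theorem add_b10 (x y : B16 K) : (x + y).b10 = x.b10 + y.b10 := rfl
@[simp] theorem add_b11 (x y : B16 K) : (x + y).b11 = x.b11 + y.b11 := rfl
@[simp] theorem add_b12 (x y : B16 K) : (x + y).b12 = x.b12 + y.b12 := rfl
@[simp] theorem add_b13 (x y : B16 K) : (x + y).b13 = x.b13 + y.b13 := rfl
@[simp] theorem add_b14 (x y : B16 K) : (x + y).b14 = x.b14 + y.b14 := rfl
@[simp] theorem add_b15 (x y : B16 K) : (x + y).b15 = x.b15 + y.b15 := rfl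
@[simp] theorem neg_b0 (x : B16 K) : (-x).b0 = -x.b0 := rfl
@[simp] theorem neg_b1 (x : B16 K) : (-x).b1 = -x.b1 := rfl
@[simp] theorem neg_b2 (x : B16 K) : (-x).b2 = -x.b2 := rfl
@[simp] theorem neg_b3 (x : B16 K) : (-x).b3 = -x.b3 := rfl
@[simp] theorem neg_b4 (x : B16 K) : (-x).b4 = -x.b4 := rfl
@[simp] theorem neg_b5 (x : B16 K) : (-x).b5 = -x.b5 := rfl
@[simp] theorem neg_b6 (x : B16 K) : (-x).b6 = -x.b6 := rfl
@[simp] theorem neg_b7 (x : B16 K) : (-x).b7 = -x.b7 := rfl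
@[simp] theorem neg_b8 (x : B16 K) : (-x).b8 = -x.b8 := rfl
@[simp] theorem neg_b9 (x : B16 K) : (-x).b9 = -x.b9 := rfl
@[simp] theorem neg_b10 (x : B16 K) : (-x).b10 = -x.b10 := rfl
@[simp] theorem neg_b11 (x : B16 K) : (-x).b11 = -x.b11 := rfl
@[simp] theorem neg_b12 (x : B16 K) : (-x).b12 = -x.b12 := rfl
@[simp] theorem neg_b13 (x : B16 K) : (-x).b13 = -x.b13 := rfl
@[simp] theorem neg_b14 (x : B16 K) : (-x).b14 = -x.b14 := rfl
@[simp] theorem neg_b15 (x : B16 K) : (-x).b15 = -x.b15 := rfl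
@[simp] theorem mul_b0 (x y : B16 K) : (x * y).b0 =
    0 := rfl
@[simp] theorem mul_b1 (x y : B16 K) : (x * y).b1 =
    0 := rfl
@[simp] theorem mul_b2 (x y : B16 K) : (x * y).b2 =
    0 := rfl
@[simp] theorem mul_b3 (x y : B16 K) : (x * y).b3 =
    x.b0 * y.b1 + x.b1 * y.b0 := rfl
@[simp] theorem mul_b4 (x y : B16 K) : (x * y).b4 =
    -x.b1 * y.b1 := rfl
@[simp] theorem mul_b5 (x y : B16 K) : (x * y).b5 =
    -x.b0 * y.b2 - x.b2 * y.b0 := rfl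
@[simp] theorem mul_b6 (x y : B16 K) : (x * y).b6 =
    -x.b2 * y.b2 := rfl
@[simp] theorem mul_b7 (x y : B16 K) : (x * y).b7 =
    x.b0 * y.b4 + x.b4 * y.b0 := rfl
@[simp] theorem mul_b8 (x y : B16 K) : (x * y).b8 =
    x.b1 * y.b5 + x.b5 * y.b1 := rfl
@[simp] theorem mul_b9 (x y : B16 K) : (x * y).b9 =
    x.b2 * y.b3 + x.b3 * y.b2 := rfl
@[simp] theorem mul_b10 (x y : B16 K) : (x * y).b10 =
    x.b2 * y.b4 + x.b4 * y.b2 := rfl
@[simp] theorem mul_b11 (x y : B16 K) : (x * y).b11 =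
    x.b0 * y.b6 + x.b6 * y.b0 := rfl
@[simp] theorem mul_b12 (x y : B16 K) : (x * y).b12 =
    -x.b1 * y.b6 - x.b6 * y.b1 := rfl
@[simp] theorem mul_b13 (x y : B16 K) : (x * y).b13 =
    -x.b0 * y.b10 + x.b1 * y.b9 + x.b9 * y.b1 - x.b10 * y.b0 := rfl
@[simp] theorem mul_b14 (x y : B16 K) : (x * y).b14 =
    -x.b0 * y.b12 + x.b2 * y.b8 + x.b8 * y.b2 - x.b12 * y.b0 := rfl
@[simp] theorem mul_b15 (x y : B16 K) : (x * y).b15 =
    -x.b1 * y.b14 - x.b2 * y.b13 - x.b3 * y.b12 - x.b4 * y.b11 + x.b5 * y.b10 + x.b6 * y.b7 + x.b7 * y.b6 + x.b10 * y.b5 - x.b11 * y.b4 - x.b12 * y.b3 - x.b13 * y.b2 - x.b14 * y.b1 := rfl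

instance : AddCommGroup (B16 K) where
  add_assoc x y z := by ext <;> simp [add_assoc]
  zero_add x := by ext <;> simp
  add_zero x := by ext <;> simp
  add_comm x y := by ext <;> simp [add_comm]
  neg_add_cancel x := by ext <;> simp
  nsmul := nsmulRec
  zsmul := zsmulRec

instance : NonUnitalNonAssocCommRing (B16 K) where
  left_distrib x y z := by ext <;> simp <;> ring
  right_distrib x y z := by ext <;> simp <;> ring
  zero_mul x := by ext <;> simp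
  mul_zero x := by ext <;> simp
  mul_comm x y := by ext <;> simp <;> ring

variable {F : Type v} [Field F] [Algebra F K]


instance : SMul F (B16 K) := ⟨fun r x => ⟨r • x.b0, r • x.b1, r • x.b2, r • x.b3, r • x.b4, r • x.b5, r • x.b6, r • x.b7, r • x.b8, r • x.b9, r • x.b10, r • x.b11, r • x.b12, r • x.b13, r • x.b14, r • x.b15⟩⟩
@[simp] theorem smul_b0 (r : F) (x : B16 K) : (r • x).b0 = r • x.b0 := rfl
@[simp] theorem smul_b1 (r : F) (x : B16 K) : (r • x).b1 = r • x.b1 := rfl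
@[simp] theorem smul_b2 (r : F) (x : B16 K) : (r • x).b2 = r • x.b2 := rfl
@[simp] theorem smul_b3 (r : F) (x : B16 K) : (r • x).b3 = r • x.b3 := rfl
@[simp] theorem smul_b4 (r : F) (x : B16 K) : (r • x).b4 = r • x.b4 := rfl
@[simp] theorem smul_b5 (r : F) (x : B16 K) : (r • x).b5 = r • x.b5 := rfl
@[simp] theorem smul_b6 (r : F) (x : B16 K) : (r • x).b6 = r • x.b6 := rfl
@[simp] theorem smul_b7 (r : F) (x : B16 K) : (r • x).b7 = r • x.b7 := rfl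
@[simp] theorem smul_b8 (r : F) (x : B16 K) : (r • x).b8 = r • x.b8 := rfl
@[simp] theorem smul_b9 (r : F) (x : B16 K) : (r • x).b9 = r • x.b9 := rfl
@[simp] theorem smul_b10 (r : F) (x : B16 K) : (r • x).b10 = r • x.b10 := rfl
@[simp] theorem smul_b11 (r : F) (x : B16 K) : (r • x).b11 = r • x.b11 := rfl
@[simp] theorem smul_b12 (r : F) (x : B16 K) : (r • x).b12 = r • x.b12 := rfl
@[simp] theorem smul_b13 (r : F) (x : B16 K) : (r • x).b13 = r • x.b13 := rfl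
@[simp] theorem smul_b14 (r : F) (x : B16 K) : (r • x).b14 = r • x.b14 := rfl
@[simp] theorem smul_b15 (r : F) (x : B16 K) : (r • x).b15 = r • x.b15 := rfl

instance : Module F (B16 K) where
  one_smul x := by ext <;> simp
  mul_smul a b x := by ext <;> simp [mul_smul]
  smul_zero a := by ext <;> simp
  smul_add a x y := by ext <;> simp
  add_smul a b x := by ext <;> simp [add_smul]
  zero_smul x := by ext <;> simp

instance : IsScalarTower F (B16 K) (B16 K) where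
  smul_assoc a x y := by
    ext <;> simp [Algebra.smul_def] <;> ring

instance : SMulCommClass F (B16 K) (B16 K) where
  smul_comm a x y := by
    ext <;> simp [Algebra.smul_def] <;> ring

end B16

end Pool.Agent.H81.JV
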