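import Pool.Agent.H81.JV.B16

/-! # The cover of the algebra `B16` -/

set_option linter.unusedSectionVars false

namespace Pool.Agent.H81.JV

universe u v w

/-- coordinates of the cover -/
structure S30 (K : Type u) where
  v0 : K
  v1 : K
  v2 : K
  v3 : K
  v4 : K
  v5 : K
  v6 : K
  v7 : K
  v8 : K
  v9 : K
  v10 : K
  v11 : K
  v12 : K
  v13 : K
  v14 : K
  v15 : K
  v16 : K
  v17 : K
  v18 : K
  v19 : K
  v20 : K
  v21 : K
  v22 : K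
  v23 : K
  v24 : K
  v25 : K
  v26 : K
  v27 : K
  v28 : K
  v29 : K

namespace S30

variable {K : Type u} [Field K] {F : Type v} [Field F] [Algebra F K]

/-- the zero of the cover -/
def zero : S30 K := ⟨0, 0, 0, 0, 0, 0, 0, 0, 0, 0, 0, 0, 0, 0, 0, 0, 0, 0, 0, 0, 0, 0, 0, 0, 0, 0, 0, 0, 0, 0⟩

/-- the sum in the cover -/
def add (v w : S30 K) : S30 K := ⟨v.v0 + w.v0, v.v1 + w.v1, v.v2 + w.v2, v.v3 + w.v3, v.v4 + w.v4, v.v5 + w.v5, v.v6 + w.v6, v.v7 + w.v7, v.v8 + w.v8, v.v9 + w.v9, v.v10 + w.v10, v.v11 + w.v11, v.v12 + w.v12, v.v13 + w.v13, v.v14 + w.v14, v.v15 + w.v15, v.v16 + w.v16, v.v17 + w.v17, v.v18 + w.v18, v.v19 + w.v19, v.v20 + w.v20, v.v21 + w.v21, v.v22 + w.v22, v.v23 + w.v23, v.v24 + w.v24, v.v25 + w.v25, v.v26 + w.v26, v.v27 + w.v27, v.v28 + w.v28, v.v29 + w.v29⟩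

/-- scalar multiples in the cover -/
def smul (r : F) (v : S30 K) : S30 K := ⟨r • v.v0, r • v.v1, r • v.v2, r • v.v3, r • v.v4, r • v.v5, r • v.v6, r • v.v7, r • v.v8, r • v.v9, r • v.v10, r • v.v11, r • v.v12, r • v.v13, r • v.v14, r • v.v15, r • v.v16, r • v.v17, r • v.v18, r • v.v19, r • v.v20, r • v.v21, r • v.v22, r • v.v23, r • v.v24, r • v.v25, r • v.v26, r • v.v27, r • v.v28, r • v.v29⟩

/-- the product in the cover -/
def mul (v w : S30 K) : S30 K := ⟨0,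
  0,
  0,
  v.v0 * w.v1 + v.v1 * w.v0,
  -v.v1 * w.v1,
  -v.v0 * w.v2 - v.v2 * w.v0,
  v.v1 * w.v2 + v.v2 * w.v1,
  -v.v2 * w.v2,
  v.v0 * w.v4 + v.v4 * w.v0,
  v.v1 * w.v3 + v.v3 * w.v1,
  v.v1 * w.v5 + v.v5 * w.v1,
  v.v2 * w.v3 + v.v3 * w.v2,
  v.v0 * w.v6 + v.v1 * w.v5 + v.v2 * w.v3 + v.v3 * w.v2 + v.v5 * w.v1 + v.v6 * w.v0,
  v.v2 * w.v4 + v.v4 * w.v2,
  v.v0 * w.v7 + v.v7 * w.v0,
  v.v0 * w.v7 - v.v2 * w.v5 - v.v5 * w.v2 + v.v7 * w.v0,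
  -v.v1 * w.v7 - v.v7 * w.v1,
  -v.v1 * w.v7 + v.v2 * w.v6 + v.v6 * w.v2 - v.v7 * w.v1,
  -v.v0 * w.v13 + v.v1 * w.v11 + v.v11 * w.v1 - v.v13 * w.v0,
  v.v1 * w.v10 + v.v1 * w.v11 + v.v1 * w.v12 + v.v2 * w.v8 - v.v3 * w.v6 - v.v6 * w.v3 + v.v8 * w.v2 + v.v10 * w.v1 + v.v11 * w.v1 + v.v12 * w.v1,
  v.v0 * w.v13 + v.v1 * w.v10 - v.v1 * w.v12 + v.v2 * w.v8 + v.v3 * w.v6 + v.v4 * w.v5 + v.v5 * w.v4 + v.v6 * w.v3 + v.v8 * w.v2 + v.v10 * w.v1 - v.v12 * w.v1 + v.v13 * w.v0,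
  -v.v0 * w.v16 + v.v2 * w.v10 + v.v10 * w.v2 - v.v16 * w.v0,
  v.v2 * w.v10 + v.v2 * w.v11 + v.v2 * w.v12 + v.v3 * w.v7 + v.v7 * w.v3 + v.v10 * w.v2 + v.v11 * w.v2 + v.v12 * w.v2,
  v.v0 * w.v16 + v.v0 * w.v17 + v.v1 * w.v14 + v.v1 * w.v15 + v.v2 * w.v12 + v.v3 * w.v7 + v.v5 * w.v6 + v.v6 * w.v5 + v.v7 * w.v3 + v.v12 * w.v2 + v.v14 * w.v1 + v.v15 * w.v1 + v.v16 * w.v0 + v.v17 * w.v0,
  -v.v0 * w.v17 - v.v1 * w.v14 - v.v1 * w.v15 - v.v2 * w.v10 - v.v2 * w.v12 + v.v3 * w.v7 + v.v5 * w.v6 + v.v6 * w.v5 + v.v7 * w.v3 - v.v10 * w.v2 - v.v12 * w.v2 - v.v14 * w.v1 - v.v15 * w.v1 - v.v17 * w.v0,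
  v.v0 * w.v17 + v.v1 * w.v15 - v.v2 * w.v11 - v.v2 * w.v12 + v.v3 * w.v7 + v.v5 * w.v6 + v.v6 * w.v5 + v.v7 * w.v3 - v.v11 * w.v2 - v.v12 * w.v2 + v.v15 * w.v1 + v.v17 * w.v0,
  v.v1 * w.v16 - v.v1 * w.v17 + v.v2 * w.v13 + v.v4 * w.v7 + v.v6 * w.v6 + v.v7 * w.v4 + v.v13 * w.v2 + v.v16 * w.v1 - v.v17 * w.v1,
  -v.v1 * w.v21 - v.v2 * w.v18 - v.v3 * w.v16 - v.v4 * w.v14 + v.v5 * w.v13 + v.v7 * w.v8 + v.v8 * w.v7 + v.v13 * w.v5 - v.v14 * w.v4 - v.v16 * w.v3 - v.v18 * w.v2 - v.v21 * w.v1,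
  v.v1 * w.v21 - v.v1 * w.v23 - v.v1 * w.v24 + v.v1 * w.v25 + v.v2 * w.v18 - v.v2 * w.v20 + v.v3 * w.v17 - v.v6 * w.v10 - v.v6 * w.v11 - v.v6 * w.v12 + v.v7 * w.v8 + v.v8 * w.v7 - v.v10 * w.v6 - v.v11 * w.v6 - v.v12 * w.v6 + v.v17 * w.v3 + v.v18 * w.v2 - v.v20 * w.v2 + v.v21 * w.v1 - v.v23 * w.v1 - v.v24 * w.v1 + v.v25 * w.v1,
  v.v0 * w.v26 + v.v1 * w.v23 + v.v1 * w.v24 + v.v2 * w.v20 - v.v3 * w.v16 + v.v4 * w.v14 + v.v4 * w.v15 + v.v5 * w.v13 + v.v6 * w.v10 + v.v7 * w.v8 + v.v8 * w.v7 + v.v10 * w.v6 + v.v13 * w.v5 + v.v14 * w.v4 + v.v15 * w.v4 - v.v16 * w.v3 + v.v20 * w.v2 + v.v23 * w.v1 + v.v24 * w.v1 + v.v26 * w.v0⟩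

/-- the map of the cover to an algebra of a bilinear form -/
def iota (v : S30 K) : J2 (Coef K) (1 : F) (1 : F) :=
  ⟨⟨⟨⟨⟨0, v.v2, v.v7⟩, ⟨0, 0, 0⟩⟩, ⟨⟨v.v1, -v.v6, v.v17⟩, ⟨0, 0, 0⟩⟩⟩,
      ⟨⟨⟨v.v0, v.v5, v.v14 + v.v15⟩, ⟨v.v3, v.v10 + v.v12, v.v21 - v.v22 - v.v23 - v.v24 + v.v25⟩⟩, ⟨⟨-v.v3, v.v10 + v.v12, v.v24⟩, ⟨v.v8 - v.v9, v.v18 - v.v19 - v.v20, v.v27 - v.v28 + v.v29⟩⟩⟩⟩,
    ⟨⟨⟨⟨0, v.v2, v.v7⟩, ⟨0, 0, 0⟩⟩, ⟨⟨v.v1, -v.v6, v.v17⟩, ⟨0, 0, 0⟩⟩⟩,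
      ⟨⟨⟨v.v0, v.v5, v.v14 + v.v15⟩, ⟨0, v.v11, v.v22⟩⟩, ⟨⟨-v.v3, v.v10 + v.v12, v.v24⟩, ⟨v.v9, v.v19, v.v28⟩⟩⟩⟩,
    ⟨⟨⟨⟨0, 0, 0⟩, ⟨v.v1, v.v6, v.v16 + v.v17⟩⟩, ⟨⟨0, 0, 0⟩, ⟨v.v4, v.v13, v.v26⟩⟩⟩,
      ⟨⟨⟨v.v0, -v.v5, v.v15⟩, ⟨v.v3, v.v12, v.v23⟩⟩, ⟨⟨v.v3, -v.v11 - v.v12, v.v25⟩, ⟨v.v8, v.v20, v.v29⟩⟩⟩⟩⟩

/-- the map of the cover onto `B16` -/
def pr (v : S30 K) : B16 K := ⟨v.v0, v.v1, v.v2, v.v3, v.v4, v.v5, v.v7, v.v8, v.v10, v.v11, v.v13, v.v14, v.v16, v.v18, v.v21, v.v27⟩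

/-- a section of `pr` -/
def sec (x : B16 K) : S30 K := ⟨x.b0, x.b1, x.b2, x.b3, x.b4, x.b5, 0, x.b6, x.b7, 0, x.b8, x.b9, 0, x.b10, x.b11, 0, x.b12, 0, x.b13, 0, 0, x.b14, 0, 0, 0, 0, 0, x.b15, 0, 0⟩

theorem pr_sec (x : B16 K) : pr (sec x) = x := rfl

theorem pr_mul (v w : S30 K) : pr (mul v w) = pr v * pr w := by
  ext <;> simp [pr, mul]

theorem pr_add (v w : S30 K) : pr (add v w) = pr v + pr w := rfl

theorem pr_smul (r : F) (v : S30 K) : pr (smul r v) = r • pr v := rfl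


theorem iota_a_aaaa (v : S30 K) : (iota (F := F) v).a.a.a.a.a = 0 := rfl
theorem iota_a_aaab (v : S30 K) : (iota (F := F) v).a.a.a.a.b = v.v2 := rfl
theorem iota_a_aaac (v : S30 K) : (iota (F := F) v).a.a.a.a.c = v.v7 := rfl
theorem iota_a_aaba (v : S30 K) : (iota (F := F) v).a.a.a.b.a = 0 := rfl
theorem iota_a_aabb (v : S30 K) : (iota (F := F) v).a.a.a.b.b = 0 := rfl
theorem iota_a_aabc (v : S30 K) : (iota (F := F) v).a.a.a.b.c = 0 := rfl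
theorem iota_a_abaa (v : S30 K) : (iota (F := F) v).a.a.b.a.a = v.v1 := rfl
theorem iota_a_abab (v : S30 K) : (iota (F := F) v).a.a.b.a.b = -v.v6 := rfl
theorem iota_a_abac (v : S30 K) : (iota (F := F) v).a.a.b.a.c = v.v17 := rfl
theorem iota_a_abba (v : S30 K) : (iota (F := F) v).a.a.b.b.a = 0 := rfl
theorem iota_a_abbb (v : S30 K) : (iota (F := F) v).a.a.b.b.b = 0 := rfl
theorem iota_a_abbc (v : S30 K) : (iota (F := F) v).a.a.b.b.c = 0 := rfl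
theorem iota_a_baaa (v : S30 K) : (iota (F := F) v).a.b.a.a.a = v.v0 := rfl
theorem iota_a_baab (v : S30 K) : (iota (F := F) v).a.b.a.a.b = v.v5 := rfl
theorem iota_a_baac (v : S30 K) : (iota (F := F) v).a.b.a.a.c = v.v14 + v.v15 := rfl
theorem iota_a_baba (v : S30 K) : (iota (F := F) v).a.b.a.b.a = v.v3 := rfl
theorem iota_a_babb (v : S30 K) : (iota (F := F) v).a.b.a.b.b = v.v10 + v.v12 := rfl
theorem iota_a_babc (v : S30 K) : (iota (F := F) v).a.b.a.b.c = v.v21 - v.v22 - v.v23 - v.v24 + v.v25 := rfl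
theorem iota_a_bbaa (v : S30 K) : (iota (F := F) v).a.b.b.a.a = -v.v3 := rfl
theorem iota_a_bbab (v : S30 K) : (iota (F := F) v).a.b.b.a.b = v.v10 + v.v12 := rfl
theorem iota_a_bbac (v : S30 K) : (iota (F := F) v).a.b.b.a.c = v.v24 := rfl
theorem iota_a_bbba (v : S30 K) : (iota (F := F) v).a.b.b.b.a = v.v8 - v.v9 := rfl
theorem iota_a_bbbb (v : S30 K) : (iota (F := F) v).a.b.b.b.b = v.v18 - v.v19 - v.v20 := rfl
theorem iota_a_bbbc (v : S30 K) : (iota (F := F) v).a.b.b.b.c = v.v27 - v.v28 + v.v29 := rfl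
theorem iota_b_aaaa (v : S30 K) : (iota (F := F) v).b.a.a.a.a = 0 := rfl
theorem iota_b_aaab (v : S30 K) : (iota (F := F) v).b.a.a.a.b = v.v2 := rfl
theorem iota_b_aaac (v : S30 K) : (iota (F := F) v).b.a.a.a.c = v.v7 := rfl
theorem iota_b_aaba (v : S30 K) : (iota (F := F) v).b.a.a.b.a = 0 := rfl
theorem iota_b_aabb (v : S30 K) : (iota (F := F) v).b.a.a.b.b = 0 := rfl
theorem iota_b_aabc (v : S30 K) : (iota (F := F) v).b.a.a.b.c = 0 := rfl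
theorem iota_b_abaa (v : S30 K) : (iota (F := F) v).b.a.b.a.a = v.v1 := rfl
theorem iota_b_abab (v : S30 K) : (iota (F := F) v).b.a.b.a.b = -v.v6 := rfl
theorem iota_b_abac (v : S30 K) : (iota (F := F) v).b.a.b.a.c = v.v17 := rfl
theorem iota_b_abba (v : S30 K) : (iota (F := F) v).b.a.b.b.a = 0 := rfl
theorem iota_b_abbb (v : S30 K) : (iota (F := F) v).b.a.b.b.b = 0 := rfl
theorem iota_b_abbc (v : S30 K) : (iota (F := F) v).b.a.b.b.c = 0 := rfl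
theorem iota_b_baaa (v : S30 K) : (iota (F := F) v).b.b.a.a.a = v.v0 := rfl
theorem iota_b_baab (v : S30 K) : (iota (F := F) v).b.b.a.a.b = v.v5 := rfl
theorem iota_b_baac (v : S30 K) : (iota (F := F) v).b.b.a.a.c = v.v14 + v.v15 := rfl
theorem iota_b_baba (v : S30 K) : (iota (F := F) v).b.b.a.b.a = 0 := rfl
theorem iota_b_babb (v : S30 K) : (iota (F := F) v).b.b.a.b.b = v.v11 := rfl
theorem iota_b_babc (v : S30 K) : (iota (F := F) v).b.b.a.b.c = v.v22 := rfl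
theorem iota_b_bbaa (v : S30 K) : (iota (F := F) v).b.b.b.a.a = -v.v3 := rfl
theorem iota_b_bbab (v : S30 K) : (iota (F := F) v).b.b.b.a.b = v.v10 + v.v12 := rfl
theorem iota_b_bbac (v : S30 K) : (iota (F := F) v).b.b.b.a.c = v.v24 := rfl
theorem iota_b_bbba (v : S30 K) : (iota (F := F) v).b.b.b.b.a = v.v9 := rfl
theorem iota_b_bbbb (v : S30 K) : (iota (F := F) v).b.b.b.b.b = v.v19 := rfl
theorem iota_b_bbbc (v : S30 K) : (iota (F := F) v).b.b.b.b.c = v.v28 := rfl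
theorem iota_c_aaaa (v : S30 K) : (iota (F := F) v).c.a.a.a.a = 0 := rfl
theorem iota_c_aaab (v : S30 K) : (iota (F := F) v).c.a.a.a.b = 0 := rfl
theorem iota_c_aaac (v : S30 K) : (iota (F := F) v).c.a.a.a.c = 0 := rfl
theorem iota_c_aaba (v : S30 K) : (iota (F := F) v).c.a.a.b.a = v.v1 := rfl
theorem iota_c_aabb (v : S30 K) : (iota (F := F) v).c.a.a.b.b = v.v6 := rfl
theorem iota_c_aabc (v : S30 K) : (iota (F := F) v).c.a.a.b.c = v.v16 + v.v17 := rfl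
theorem iota_c_abaa (v : S30 K) : (iota (F := F) v).c.a.b.a.a = 0 := rfl
theorem iota_c_abab (v : S30 K) : (iota (F := F) v).c.a.b.a.b = 0 := rfl
theorem iota_c_abac (v : S30 K) : (iota (F := F) v).c.a.b.a.c = 0 := rfl
theorem iota_c_abba (v : S30 K) : (iota (F := F) v).c.a.b.b.a = v.v4 := rfl
theorem iota_c_abbb (v : S30 K) : (iota (F := F) v).c.a.b.b.b = v.v13 := rfl
theorem iota_c_abbc (v : S30 K) : (iota (F := F) v).c.a.b.b.c = v.v26 := rfl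
theorem iota_c_baaa (v : S30 K) : (iota (F := F) v).c.b.a.a.a = v.v0 := rfl
theorem iota_c_baab (v : S30 K) : (iota (F := F) v).c.b.a.a.b = -v.v5 := rfl
theorem iota_c_baac (v : S30 K) : (iota (F := F) v).c.b.a.a.c = v.v15 := rfl
theorem iota_c_baba (v : S30 K) : (iota (F := F) v).c.b.a.b.a = v.v3 := rfl
theorem iota_c_babb (v : S30 K) : (iota (F := F) v).c.b.a.b.b = v.v12 := rfl
theorem iota_c_babc (v : S30 K) : (iota (F := F) v).c.b.a.b.c = v.v23 := rfl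
theorem iota_c_bbaa (v : S30 K) : (iota (F := F) v).c.b.b.a.a = v.v3 := rfl
theorem iota_c_bbab (v : S30 K) : (iota (F := F) v).c.b.b.a.b = -v.v11 - v.v12 := rfl
theorem iota_c_bbac (v : S30 K) : (iota (F := F) v).c.b.b.a.c = v.v25 := rfl
theorem iota_c_bbba (v : S30 K) : (iota (F := F) v).c.b.b.b.a = v.v8 := rfl
theorem iota_c_bbbb (v : S30 K) : (iota (F := F) v).c.b.b.b.b = v.v20 := rfl
theorem iota_c_bbbc (v : S30 K) : (iota (F := F) v).c.b.b.b.c = v.v29 := rfl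

theorem iota_add (v w : S30 K) :
    iota (F := F) (add v w) = iota v + iota w := by
  refine J2.ext ?_ ?_ ?_ <;>
    (refine Dual.ext (Dual.ext (Dual.ext (T3.ext ?_ ?_ ?_) (T3.ext ?_ ?_ ?_))
      (Dual.ext (T3.ext ?_ ?_ ?_) (T3.ext ?_ ?_ ?_)))
      (Dual.ext (Dual.ext (T3.ext ?_ ?_ ?_) (T3.ext ?_ ?_ ?_))
      (Dual.ext (T3.ext ?_ ?_ ?_) (T3.ext ?_ ?_ ?_))) <;>
      simp only [iota_a_aaaa, iota_a_aaab, iota_a_aaac, iota_a_aaba, iota_a_aabb, iota_a_aabc,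
      iota_a_abaa, iota_a_abab, iota_a_abac, iota_a_abba, iota_a_abbb, iota_a_abbc,
      iota_a_baaa, iota_a_baab, iota_a_baac, iota_a_baba, iota_a_babb, iota_a_babc,
      iota_a_bbaa, iota_a_bbab, iota_a_bbac, iota_a_bbba, iota_a_bbbb, iota_a_bbbc,
      iota_b_aaaa, iota_b_aaab, iota_b_aaac, iota_b_aaba, iota_b_aabb, iota_b_aabc,
      iota_b_abaa, iota_b_abab, iota_b_abac, iota_b_abba, iota_b_abbb, iota_b_abbc,
      iota_b_baaa, iota_b_baab, iota_b_baac, iota_b_baba, iota_b_babb, iota_b_babc,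
      iota_b_bbaa, iota_b_bbab, iota_b_bbac, iota_b_bbba, iota_b_bbbb, iota_b_bbbc,
      iota_c_aaaa, iota_c_aaab, iota_c_aaac, iota_c_aaba, iota_c_aabb, iota_c_aabc,
      iota_c_abaa, iota_c_abab, iota_c_abac, iota_c_abba, iota_c_abbb, iota_c_abbc,
      iota_c_baaa, iota_c_baab, iota_c_baac, iota_c_baba, iota_c_babb, iota_c_babc,
      iota_c_bbaa, iota_c_bbab, iota_c_bbac, iota_c_bbba, iota_c_bbbb, iota_c_bbbc, add, J2.add_a, J2.add_b, J2.add_c, Dual.add_a, Dual.add_b, T3.add_a,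
        T3.add_b, T3.add_c] <;> ring)

theorem iota_smul (r : F) (v : S30 K) :
    iota (F := F) (smul r v) = r • iota v := by
  refine J2.ext ?_ ?_ ?_ <;>
    (refine Dual.ext (Dual.ext (Dual.ext (T3.ext ?_ ?_ ?_) (T3.ext ?_ ?_ ?_))
      (Dual.ext (T3.ext ?_ ?_ ?_) (T3.ext ?_ ?_ ?_)))
      (Dual.ext (Dual.ext (T3.ext ?_ ?_ ?_) (T3.ext ?_ ?_ ?_))
      (Dual.ext (T3.ext ?_ ?_ ?_) (T3.ext ?_ ?_ ?_))) <;>
      simp only [iota_a_aaaa, iota_a_aaab, iota_a_aaac, iota_a_aaba, iota_a_aabb, iota_a_aabc,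
      iota_a_abaa, iota_a_abab, iota_a_abac, iota_a_abba, iota_a_abbb, iota_a_abbc,
      iota_a_baaa, iota_a_baab, iota_a_baac, iota_a_baba, iota_a_babb, iota_a_babc,
      iota_a_bbaa, iota_a_bbab, iota_a_bbac, iota_a_bbba, iota_a_bbbb, iota_a_bbbc,
      iota_b_aaaa, iota_b_aaab, iota_b_aaac, iota_b_aaba, iota_b_aabb, iota_b_aabc,
      iota_b_abaa, iota_b_abab, iota_b_abac, iota_b_abba, iota_b_abbb, iota_b_abbc,
      iota_b_baaa, iota_b_baab, iota_b_baac, iota_b_baba, iota_b_babb, iota_b_babc,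
      iota_b_bbaa, iota_b_bbab, iota_b_bbac, iota_b_bbba, iota_b_bbbb, iota_b_bbbc,
      iota_c_aaaa, iota_c_aaab, iota_c_aaac, iota_c_aaba, iota_c_aabb, iota_c_aabc,
      iota_c_abaa, iota_c_abab, iota_c_abac, iota_c_abba, iota_c_abbb, iota_c_abbc,
      iota_c_baaa, iota_c_baab, iota_c_baac, iota_c_baba, iota_c_babb, iota_c_babc,
      iota_c_bbaa, iota_c_bbab, iota_c_bbac, iota_c_bbba, iota_c_bbbb, iota_c_bbbc, smul, J2.smul_a, J2.smul_b, J2.smul_c, Dual.smul_a, Dual.smul_b, T3.smul_a,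
        T3.smul_b, T3.smul_c] <;> simp only [Algebra.smul_def] <;> ring)

set_option maxHeartbeats 4000000 in
theorem iota_mul_a (h3 : (3 : K) = 0) (v w : S30 K) :
    (iota (F := F) (mul v w)).a = (iota (F := F) v * iota (F := F) w).a := by
  refine Dual.ext (Dual.ext (Dual.ext (T3.ext ?_ ?_ ?_) (T3.ext ?_ ?_ ?_))
    (Dual.ext (T3.ext ?_ ?_ ?_) (T3.ext ?_ ?_ ?_)))
    (Dual.ext (Dual.ext (T3.ext ?_ ?_ ?_) (T3.ext ?_ ?_ ?_))
    (Dual.ext (T3.ext ?_ ?_ ?_) (T3.ext ?_ ?_ ?_))) <;>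
    simp only [J2.mul_a, J2.mul_b, J2.mul_c, Dual.mul_a, Dual.mul_b, Dual.add_a, Dual.add_b, T3.mul_a,
      T3.mul_b, T3.mul_c, T3.add_a, T3.add_b, T3.add_c, map_one, one_mul,
      iota_a_aaaa, iota_a_aaab, iota_a_aaac, iota_a_aaba, iota_a_aabb, iota_a_aabc,
      iota_a_abaa, iota_a_abab, iota_a_abac, iota_a_abba, iota_a_abbb, iota_a_abbc,
      iota_a_baaa, iota_a_baab, iota_a_baac, iota_a_baba, iota_a_babb, iota_a_babc,
      iota_a_bbaa, iota_a_bbab, iota_a_bbac, iota_a_bbba, iota_a_bbbb, iota_a_bbbc,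
      iota_b_aaaa, iota_b_aaab, iota_b_aaac, iota_b_aaba, iota_b_aabb, iota_b_aabc,
      iota_b_abaa, iota_b_abab, iota_b_abac, iota_b_abba, iota_b_abbb, iota_b_abbc,
      iota_b_baaa, iota_b_baab, iota_b_baac, iota_b_baba, iota_b_babb, iota_b_babc,
      iota_b_bbaa, iota_b_bbab, iota_b_bbac, iota_b_bbba, iota_b_bbbb, iota_b_bbbc,
      iota_c_aaaa, iota_c_aaab, iota_c_aaac, iota_c_aaba, iota_c_aabb, iota_c_aabc,
      iota_c_abaa, iota_c_abab, iota_c_abac, iota_c_abba, iota_c_abbb, iota_c_abbc,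
      iota_c_baaa, iota_c_baab, iota_c_baac, iota_c_baba, iota_c_babb, iota_c_babc,
      iota_c_bbaa, iota_c_bbab, iota_c_bbac, iota_c_bbba, iota_c_bbbb, iota_c_bbbc, zero_mul, mul_zero, add_zero, zero_add]
  · simp only [mul] <;> ring
  · simp only [mul]; linear_combination (-v.v2 * w.v2) * h3
  · simp only [mul] <;> ring
  · simp only [mul]; linear_combination (-v.v1 * w.v2 - v.v2 * w.v1) * h3
  · simp only [mul]; linear_combination (-v.v1 * w.v7 + v.v2 * w.v6 + v.v6 * w.v2 - v.v7 * w.v1) * h3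
  · simp only [mul] <;> ring
  · simp only [mul]; linear_combination (-v.v0 * w.v2 - v.v2 * w.v0) * h3
  · simp only [mul]; linear_combination (-v.v2 * w.v5 - v.v5 * w.v2) * h3
  · simp only [mul] <;> ring
  · simp only [mul]; linear_combination (v.v1 * w.v5 + v.v5 * w.v1) * h3
  · simp only [mul]; linear_combination (-v.v0 * w.v16 - v.v2 * w.v11 - v.v2 * w.v12 - v.v3 * w.v7 - v.v7 * w.v3 - v.v11 * w.v2 - v.v12 * w.v2 - v.v16 * w.v0) * h3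
  · simp only [mul]; linear_combination (-v.v0 * w.v1 - v.v1 * w.v0) * h3
  · simp only [mul]; linear_combination (v.v0 * w.v6 + v.v2 * w.v3 + v.v3 * w.v2 + v.v6 * w.v0) * h3
  · simp only [mul]; linear_combination (-v.v0 * w.v17 - v.v1 * w.v14 - v.v1 * w.v15 - v.v2 * w.v10 - v.v2 * w.v12 + v.v3 * w.v7 + v.v5 * w.v6 + v.v6 * w.v5 + v.v7 * w.v3 - v.v10 * w.v2 - v.v12 * w.v2 - v.v14 * w.v1 - v.v15 * w.v1 - v.v17 * w.v0) * h3
  · simp only [mul]; linear_combination (-v.v1 * w.v3 - v.v3 * w.v1) * h3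
  · simp only [mul]; linear_combination (-v.v0 * w.v13 - v.v1 * w.v10 - v.v2 * w.v8 - v.v8 * w.v2 - v.v10 * w.v1 - v.v13 * w.v0) * h3
  · simp only [mul]; linear_combination (-v.v1 * w.v21 + v.v1 * w.v23 + v.v1 * w.v24 - v.v1 * w.v25 - v.v2 * w.v18 + v.v2 * w.v20 - v.v3 * w.v16 - v.v3 * w.v17 + v.v5 * w.v13 + v.v6 * w.v10 + v.v6 * w.v11 + v.v6 * w.v12 + v.v10 * w.v6 + v.v11 * w.v6 + v.v12 * w.v6 + v.v13 * w.v5 - v.v16 * w.v3 - v.v17 * w.v3 - v.v18 * w.v2 + v.v20 * w.v2 - v.v21 * w.v1 + v.v23 * w.v1 + v.v24 * w.v1 - v.v25 * w.v1) * h3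

set_option maxHeartbeats 4000000 in
theorem iota_mul_b (h3 : (3 : K) = 0) (v w : S30 K) :
    (iota (F := F) (mul v w)).b = (iota (F := F) v * iota (F := F) w).b := by
  refine Dual.ext (Dual.ext (Dual.ext (T3.ext ?_ ?_ ?_) (T3.ext ?_ ?_ ?_))
    (Dual.ext (T3.ext ?_ ?_ ?_) (T3.ext ?_ ?_ ?_)))
    (Dual.ext (Dual.ext (T3.ext ?_ ?_ ?_) (T3.ext ?_ ?_ ?_))
    (Dual.ext (T3.ext ?_ ?_ ?_) (T3.ext ?_ ?_ ?_))) <;>
    simp only [J2.mul_a, J2.mul_b, J2.mul_c, Dual.mul_a, Dual.mul_b, Dual.add_a, Dual.add_b, T3.mul_a,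
      T3.mul_b, T3.mul_c, T3.add_a, T3.add_b, T3.add_c, map_one, one_mul,
      iota_a_aaaa, iota_a_aaab, iota_a_aaac, iota_a_aaba, iota_a_aabb, iota_a_aabc,
      iota_a_abaa, iota_a_abab, iota_a_abac, iota_a_abba, iota_a_abbb, iota_a_abbc,
      iota_a_baaa, iota_a_baab, iota_a_baac, iota_a_baba, iota_a_babb, iota_a_babc,
      iota_a_bbaa, iota_a_bbab, iota_a_bbac, iota_a_bbba, iota_a_bbbb, iota_a_bbbc,
      iota_b_aaaa, iota_b_aaab, iota_b_aaac, iota_b_aaba, iota_b_aabb, iota_b_aabc,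
      iota_b_abaa, iota_b_abab, iota_b_abac, iota_b_abba, iota_b_abbb, iota_b_abbc,
      iota_b_baaa, iota_b_baab, iota_b_baac, iota_b_baba, iota_b_babb, iota_b_babc,
      iota_b_bbaa, iota_b_bbab, iota_b_bbac, iota_b_bbba, iota_b_bbbb, iota_b_bbbc,
      iota_c_aaaa, iota_c_aaab, iota_c_aaac, iota_c_aaba, iota_c_aabb, iota_c_aabc,
      iota_c_abaa, iota_c_abab, iota_c_abac, iota_c_abba, iota_c_abbb, iota_c_abbc,
      iota_c_baaa, iota_c_baab, iota_c_baac, iota_c_baba, iota_c_babb, iota_c_babc,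
      iota_c_bbaa, iota_c_bbab, iota_c_bbac, iota_c_bbba, iota_c_bbbb, iota_c_bbbc, zero_mul, mul_zero, add_zero, zero_add]
  · simp only [mul] <;> ring
  · simp only [mul]; linear_combination (-v.v2 * w.v2) * h3
  · simp only [mul] <;> ring
  · simp only [mul]; linear_combination (-v.v1 * w.v2 - v.v2 * w.v1) * h3
  · simp only [mul]; linear_combination (-v.v1 * w.v7 + v.v2 * w.v6 + v.v6 * w.v2 - v.v7 * w.v1) * h3
  · simp only [mul] <;> ring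
  · simp only [mul]; linear_combination (-v.v0 * w.v2 - v.v2 * w.v0) * h3
  · simp only [mul]; linear_combination (-v.v2 * w.v5 - v.v5 * w.v2) * h3
  · simp only [mul] <;> ring
  · simp only [mul] <;> ring
  · simp only [mul]; linear_combination (-v.v0 * w.v1 - v.v1 * w.v0) * h3
  · simp only [mul]; linear_combination (v.v0 * w.v6 + v.v2 * w.v3 + v.v3 * w.v2 + v.v6 * w.v0) * h3
  · simp only [mul]; linear_combination (-v.v0 * w.v17 - v.v1 * w.v14 - v.v1 * w.v15 - v.v2 * w.v10 - v.v2 * w.v12 + v.v3 * w.v7 + v.v5 * w.v6 + v.v6 * w.v5 + v.v7 * w.v3 - v.v10 * w.v2 - v.v12 * w.v2 - v.v14 * w.v1 - v.v15 * w.v1 - v.v17 * w.v0) * h3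
  · simp only [mul] <;> ring
  · simp only [mul] <;> ring
  · simp only [mul] <;> ring

set_option maxHeartbeats 4000000 in
theorem iota_mul_c (h3 : (3 : K) = 0) (v w : S30 K) :
    (iota (F := F) (mul v w)).c = (iota (F := F) v * iota (F := F) w).c := by
  refine Dual.ext (Dual.ext (Dual.ext (T3.ext ?_ ?_ ?_) (T3.ext ?_ ?_ ?_))
    (Dual.ext (T3.ext ?_ ?_ ?_) (T3.ext ?_ ?_ ?_)))
    (Dual.ext (Dual.ext (T3.ext ?_ ?_ ?_) (T3.ext ?_ ?_ ?_))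
    (Dual.ext (T3.ext ?_ ?_ ?_) (T3.ext ?_ ?_ ?_))) <;>
    simp only [J2.mul_a, J2.mul_b, J2.mul_c, Dual.mul_a, Dual.mul_b, Dual.add_a, Dual.add_b, T3.mul_a,
      T3.mul_b, T3.mul_c, T3.add_a, T3.add_b, T3.add_c, map_one, one_mul,
      iota_a_aaaa, iota_a_aaab, iota_a_aaac, iota_a_aaba, iota_a_aabb, iota_a_aabc,
      iota_a_abaa, iota_a_abab, iota_a_abac, iota_a_abba, iota_a_abbb, iota_a_abbc,
      iota_a_baaa, iota_a_baab, iota_a_baac, iota_a_baba, iota_a_babb, iota_a_babc,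
      iota_a_bbaa, iota_a_bbab, iota_a_bbac, iota_a_bbba, iota_a_bbbb, iota_a_bbbc,
      iota_b_aaaa, iota_b_aaab, iota_b_aaac, iota_b_aaba, iota_b_aabb, iota_b_aabc,
      iota_b_abaa, iota_b_abab, iota_b_abac, iota_b_abba, iota_b_abbb, iota_b_abbc,
      iota_b_baaa, iota_b_baab, iota_b_baac, iota_b_baba, iota_b_babb, iota_b_babc,
      iota_b_bbaa, iota_b_bbab, iota_b_bbac, iota_b_bbba, iota_b_bbbb, iota_b_bbbc,
      iota_c_aaaa, iota_c_aaab, iota_c_aaac, iota_c_aaba, iota_c_aabb, iota_c_aabc,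
      iota_c_abaa, iota_c_abab, iota_c_abac, iota_c_abba, iota_c_abbb, iota_c_abbc,
      iota_c_baaa, iota_c_baab, iota_c_baac, iota_c_baba, iota_c_babb, iota_c_babc,
      iota_c_bbaa, iota_c_bbab, iota_c_bbac, iota_c_bbba, iota_c_bbbb, iota_c_bbbc, zero_mul, mul_zero, add_zero, zero_add]
  · simp only [mul] <;> ring
  · simp only [mul] <;> ring
  · simp only [mul]; linear_combination (-v.v1 * w.v7 - v.v7 * w.v1) * h3
  · simp only [mul]; linear_combination (-v.v1 * w.v1) * h3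
  · simp only [mul] <;> ring
  · simp only [mul]; linear_combination (-v.v1 * w.v17 + v.v6 * w.v6 - v.v17 * w.v1) * h3
  · simp only [mul] <;> ring
  · simp only [mul] <;> ring
  · simp only [mul] <;> ring
  · simp only [mul] <;> ring
  · simp only [mul] <;> ring
  · simp only [mul] <;> ring
  · simp only [mul] <;> ring
  · simp only [mul]; linear_combination (-v.v2 * w.v3 - v.v3 * w.v2) * h3
  · simp only [mul] <;> ring
  · simp only [mul] <;> ring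
  · simp only [mul]; linear_combination (-v.v1 * w.v12 + v.v3 * w.v6 + v.v6 * w.v3 - v.v12 * w.v1) * h3
  · simp only [mul] <;> ring

theorem pr_eq_zero (h3 : (3 : K) = 0) (v : S30 K) (h : iota (F := F) v = 0) : pr v = 0 := by
  have e0 : v.v0 = 0 := congrArg (fun x : J2 (Coef K) (1 : F) (1 : F) => x.a.b.a.a.a) h
  have e1 : v.v1 = 0 := congrArg (fun x : J2 (Coef K) (1 : F) (1 : F) => x.c.a.a.b.a) h
  have e2 : v.v2 = 0 := congrArg (fun x : J2 (Coef K) (1 : F) (1 : F) => x.a.a.a.a.b) h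
  have e3 : v.v3 = 0 := congrArg (fun x : J2 (Coef K) (1 : F) (1 : F) => x.a.b.a.b.a) h
  have e4 : v.v4 = 0 := congrArg (fun x : J2 (Coef K) (1 : F) (1 : F) => x.c.a.b.b.a) h
  have e5 : v.v5 = 0 := congrArg (fun x : J2 (Coef K) (1 : F) (1 : F) => x.a.b.a.a.b) h
  have e6 : v.v7 = 0 := congrArg (fun x : J2 (Coef K) (1 : F) (1 : F) => x.a.a.a.a.c) h
  have e7 : v.v8 = 0 := congrArg (fun x : J2 (Coef K) (1 : F) (1 : F) => x.c.b.b.b.a) h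
  have e8 : v.v10 + v.v12 = 0 := congrArg (fun x : J2 (Coef K) (1 : F) (1 : F) => x.a.b.a.b.b) h
  have e9 : v.v11 = 0 := congrArg (fun x : J2 (Coef K) (1 : F) (1 : F) => x.b.b.a.b.b) h
  have e10 : -v.v11 - v.v12 = 0 := congrArg (fun x : J2 (Coef K) (1 : F) (1 : F) => x.c.b.b.a.b) h
  have e11 : v.v13 = 0 := congrArg (fun x : J2 (Coef K) (1 : F) (1 : F) => x.c.a.b.b.b) h
  have e12 : v.v14 + v.v15 = 0 := congrArg (fun x : J2 (Coef K) (1 : F) (1 : F) => x.a.b.a.a.c) h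
  have e13 : v.v15 = 0 := congrArg (fun x : J2 (Coef K) (1 : F) (1 : F) => x.c.b.a.a.c) h
  have e14 : v.v16 + v.v17 = 0 := congrArg (fun x : J2 (Coef K) (1 : F) (1 : F) => x.c.a.a.b.c) h
  have e15 : v.v17 = 0 := congrArg (fun x : J2 (Coef K) (1 : F) (1 : F) => x.a.a.b.a.c) h
  have e16 : v.v18 - v.v19 - v.v20 = 0 := congrArg (fun x : J2 (Coef K) (1 : F) (1 : F) => x.a.b.b.b.b) h
  have e17 : v.v19 = 0 := congrArg (fun x : J2 (Coef K) (1 : F) (1 : F) => x.b.b.b.b.b) h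
  have e18 : v.v20 = 0 := congrArg (fun x : J2 (Coef K) (1 : F) (1 : F) => x.c.b.b.b.b) h
  have e19 : v.v21 - v.v22 - v.v23 - v.v24 + v.v25 = 0 := congrArg (fun x : J2 (Coef K) (1 : F) (1 : F) => x.a.b.a.b.c) h
  have e20 : v.v22 = 0 := congrArg (fun x : J2 (Coef K) (1 : F) (1 : F) => x.b.b.a.b.c) h
  have e21 : v.v23 = 0 := congrArg (fun x : J2 (Coef K) (1 : F) (1 : F) => x.c.b.a.b.c) h
  have e22 : v.v24 = 0 := congrArg (fun x : J2 (Coef K) (1 : F) (1 : F) => x.a.b.b.a.c) h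
  have e23 : v.v25 = 0 := congrArg (fun x : J2 (Coef K) (1 : F) (1 : F) => x.c.b.b.a.c) h
  have e24 : v.v27 - v.v28 + v.v29 = 0 := congrArg (fun x : J2 (Coef K) (1 : F) (1 : F) => x.a.b.b.b.c) h
  have e25 : v.v28 = 0 := congrArg (fun x : J2 (Coef K) (1 : F) (1 : F) => x.b.b.b.b.c) h
  have e26 : v.v29 = 0 := congrArg (fun x : J2 (Coef K) (1 : F) (1 : F) => x.c.b.b.b.c) h
  refine B16.ext ?_ ?_ ?_ ?_ ?_ ?_ ?_ ?_ ?_ ?_ ?_ ?_ ?_ ?_ ?_ ?_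
  · show v.v0 = 0
    linear_combination e0
  · show v.v1 = 0
    linear_combination e1
  · show v.v2 = 0
    linear_combination e2
  · show v.v3 = 0
    linear_combination e3
  · show v.v4 = 0
    linear_combination e4
  · show v.v5 = 0
    linear_combination e5
  · show v.v7 = 0
    linear_combination e6
  · show v.v8 = 0
    linear_combination e7
  · show v.v10 = 0
    linear_combination e8 + e9 + e10
  · show v.v11 = 0
    linear_combination e9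
  · show v.v13 = 0
    linear_combination e11
  · show v.v14 = 0
    linear_combination e12 - e13
  · show v.v16 = 0
    linear_combination e14 - e15
  · show v.v18 = 0
    linear_combination e16 + e17 + e18
  · show v.v21 = 0
    linear_combination e19 + e20 + e21 + e22 - e23
  · show v.v27 = 0
    linear_combination e24 + e25 - e26

end S30

end Pool.Agent.H81.JV
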