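import Mathlib.Algebra.FreeNonUnitalNonAssocAlgebra
import Mathlib.Algebra.Jordan.Basic
import Mathlib.LinearAlgebra.BilinearForm.Properties

/-!
# Jordan algebras of a bilinear form, polynomial identities, special algebras

The definitions used in the statement of the theorem.
-/

namespace Pool.Agent.H81.JV

universe u v w

/-- The underlying space `F 1 + V` of the Jordan algebra `J(V, f)` of a bilinear form `f` on `V`:
an element is a scalar together with a vector. -/
@[ext]
structure JordanForm (F : Type u) (V : Type v) [Field F] [AddCommGroup V] [Module F V]
    (f : LinearMap.BilinForm F V) where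
  /-- the scalar part -/
  scalar : F
  /-- the vector part -/
  vector : V

namespace JordanForm

variable {F : Type u} {V : Type v} [Field F] [AddCommGroup V] [Module F V]
  {f : LinearMap.BilinForm F V}

instance : Zero (JordanForm F V f) := ⟨⟨0, 0⟩⟩
instance : Add (JordanForm F V f) := ⟨fun x y => ⟨x.scalar + y.scalar, x.vector + y.vector⟩⟩
instance : Neg (JordanForm F V f) := ⟨fun x => ⟨-x.scalar, -x.vector⟩⟩
instance : SMul F (JordanForm F V f) := ⟨fun c x => ⟨c * x.scalar, c • x.vector⟩⟩

/-- The product `(a + v)(b + w) = (ab + f(v, w)) + (aw + bv)`. -/
instance : Mul (JordanForm F V f) :=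
  ⟨fun x y => ⟨x.scalar * y.scalar + f x.vector y.vector,
    x.scalar • y.vector + y.scalar • x.vector⟩⟩

@[simp] theorem zero_scalar : (0 : JordanForm F V f).scalar = 0 := rfl
@[simp] theorem zero_vector : (0 : JordanForm F V f).vector = 0 := rfl
@[simp] theorem add_scalar (x y : JordanForm F V f) : (x + y).scalar = x.scalar + y.scalar := rfl
@[simp] theorem add_vector (x y : JordanForm F V f) : (x + y).vector = x.vector + y.vector := rfl
@[simp] theorem neg_scalar (x : JordanForm F V f) : (-x).scalar = -x.scalar := rfl
@[simp] theorem neg_vector (x : JordanForm F V f) : (-x).vector = -x.vector := rfl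
@[simp] theorem smul_scalar (c : F) (x : JordanForm F V f) : (c • x).scalar = c * x.scalar := rfl
@[simp] theorem smul_vector (c : F) (x : JordanForm F V f) : (c • x).vector = c • x.vector := rfl
@[simp] theorem mul_scalar (x y : JordanForm F V f) :
    (x * y).scalar = x.scalar * y.scalar + f x.vector y.vector := rfl
@[simp] theorem mul_vector (x y : JordanForm F V f) :
    (x * y).vector = x.scalar • y.vector + y.scalar • x.vector := rfl

instance : AddCommGroup (JordanForm F V f) where
  add_assoc x y z := by ext <;> simp [add_assoc]
  zero_add x := by ext <;> simp
  add_zero x := by ext <;> simp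
  add_comm x y := by ext <;> simp [add_comm]
  neg_add_cancel x := by ext <;> simp
  nsmul := nsmulRec
  zsmul := zsmulRec

instance : NonUnitalNonAssocRing (JordanForm F V f) where
  left_distrib x y z := by
    ext
    · simp only [mul_scalar, add_scalar, add_vector, map_add]; ring
    · simp only [mul_vector, add_scalar, add_vector, smul_add, add_smul]; abel
  right_distrib x y z := by
    ext
    · simp only [mul_scalar, add_scalar, add_vector, map_add, LinearMap.add_apply]; ring
    · simp only [mul_vector, add_scalar, add_vector, smul_add, add_smul]; abel
  zero_mul x := by ext <;> simp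
  mul_zero x := by ext <;> simp

instance : Module F (JordanForm F V f) where
  one_smul x := by ext <;> simp
  mul_smul a b x := by ext <;> simp [mul_assoc, mul_smul]
  smul_zero a := by ext <;> simp
  smul_add a x y := by ext <;> simp [mul_add]
  add_smul a b x := by ext <;> simp [add_mul, add_smul]
  zero_smul x := by ext <;> simp

instance : IsScalarTower F (JordanForm F V f) (JordanForm F V f) where
  smul_assoc a x y := by
    ext
    · simp only [smul_eq_mul, mul_scalar, smul_scalar, smul_vector, map_smul, LinearMap.smul_apply]
      ring
    · simp only [smul_eq_mul, mul_vector, smul_scalar, smul_vector, smul_add, smul_smul]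
      simp only [mul_comm]

instance : SMulCommClass F (JordanForm F V f) (JordanForm F V f) where
  smul_comm a x y := by
    ext
    · simp only [smul_eq_mul, mul_scalar, smul_scalar, smul_vector, map_smul, smul_eq_mul]
      ring
    · simp only [smul_eq_mul, mul_vector, smul_scalar, smul_vector, smul_add, smul_smul]
      simp only [mul_comm]

end JordanForm

/-- Every polynomial identity over `F` that holds in the algebra `J` holds in the algebra `B`.
A polynomial is an element `g` of the free nonassociative algebra over `F` in countably many
variables, and `FreeNonUnitalNonAssocAlgebra.lift F r g` is its value under the substitution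
`r` of elements for the variables; it is an identity of an algebra if all its values are zero. -/
def SatisfiesIdentitiesOf (F : Type u) (J : Type v) (B : Type w) [Field F]
    [NonUnitalNonAssocRing J] [Module F J] [IsScalarTower F J J] [SMulCommClass F J J]
    [NonUnitalNonAssocRing B] [Module F B] [IsScalarTower F B B] [SMulCommClass F B B] : Prop :=
  ∀ g : FreeNonUnitalNonAssocAlgebra F ℕ,
    (∀ r : ℕ → J, FreeNonUnitalNonAssocAlgebra.lift F r g = 0) →
    ∀ r : ℕ → B, FreeNonUnitalNonAssocAlgebra.lift F r g = 0

/-- The algebra `B` over `F` is special: it embeds in `A⁺` for some associative algebra `A`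
over `F` (with or without unit), where `A⁺` is `A` with the product `(ab + ba) / 2`. -/
def IsSpecial (F : Type u) (B : Type v) [Field F] [NonUnitalNonAssocRing B] [Module F B] : Prop :=
  ∃ (A : Type w) (_ : NonUnitalRing A) (_ : Module F A) (_ : IsScalarTower F A A)
    (_ : SMulCommClass F A A) (φ : B →ₗ[F] A), Function.Injective φ ∧
      ∀ a b : B, φ (a * b) = (2 : F)⁻¹ • (φ a * φ b + φ b * φ a)

end Pool.Agent.H81.JV
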