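import Pool.Agent.H81.JV.Cover
import Mathlib.Algebra.Algebra.NonUnitalSubalgebra
import Mathlib.Tactic.Module
import Mathlib.Tactic.NoncommRing
import Mathlib.FieldTheory.IsAlgClosed.AlgebraicClosure

/-! # Assembling the counterexample -/

set_option linter.unusedSectionVars false

namespace Pool.Agent.H81.JV

universe u v w

open FreeNonUnitalNonAssocAlgebra (lift)

/-- the identities of the cover hold in `B16` -/
theorem satisfies_B16 (F : Type v) (K : Type u) [Field F] [Field K] [Algebra F K]
    (h3 : (3 : K) = 0) :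
    SatisfiesIdentitiesOf F (J2 (Coef K) (1 : F) (1 : F)) (B16 K) := by
  intro g hg r
  let S : NonUnitalSubalgebra F (J2 (Coef K) (1 : F) (1 : F) × B16 K) :=
    { carrier := {x | ∃ v : S30 K, S30.iota v = x.1 ∧ S30.pr v = x.2}
      add_mem' := by
        rintro x y ⟨v, hv1, hv2⟩ ⟨w, hw1, hw2⟩
        refine ⟨S30.add v w, ?_, ?_⟩
        · rw [S30.iota_add, hv1, hw1]; rfl
        · rw [S30.pr_add, hv2, hw2]; rfl
      zero_mem' := ⟨S30.zero, by
        have h := S30.iota_smul (F := F) (0 : F) (S30.zero (K := K))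
        rw [zero_smul] at h
        refine Eq.trans ?_ h
        congr 1
        simp [S30.smul, S30.zero], rfl⟩
      mul_mem' := by
        rintro x y ⟨v, hv1, hv2⟩ ⟨w, hw1, hw2⟩
        refine ⟨S30.mul v w, ?_, ?_⟩
        · have : S30.iota (F := F) (S30.mul v w) = S30.iota v * S30.iota w :=
            J2.ext (S30.iota_mul_a h3 v w) (S30.iota_mul_b h3 v w) (S30.iota_mul_c h3 v w)
          rw [this, hv1, hw1]; rfl
        · rw [S30.pr_mul, hv2, hw2]; rfl
      smul_mem' := by
        rintro c x ⟨v, hv1, hv2⟩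
        refine ⟨S30.smul c v, ?_, ?_⟩
        · rw [S30.iota_smul, hv1]; rfl
        · rw [S30.pr_smul, hv2]; rfl }
  let ρ : ℕ → S := fun n => ⟨(S30.iota (S30.sec (r n)), r n), ⟨S30.sec (r n), rfl, rfl⟩⟩
  let ι : S →ₙₐ[F] (J2 (Coef K) (1 : F) (1 : F) × B16 K) := NonUnitalSubalgebraClass.subtype S
  let φ1 : S →ₙₐ[F] J2 (Coef K) (1 : F) (1 : F) := (NonUnitalAlgHom.fst F _ _).comp ι
  let φ2 : S →ₙₐ[F] B16 K := (NonUnitalAlgHom.snd F _ _).comp ι
  have h1 : φ1 (lift F ρ g) = 0 := by rw [map_lift]; exact hg _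
  have h2 : φ2 (lift F ρ g) = lift F r g := by rw [map_lift]; rfl
  obtain ⟨v, hv1, hv2⟩ := (lift F ρ g).2
  rw [← h2]
  have h3' : S30.iota (F := F) v = 0 := hv1.trans h1
  exact hv2.symm.trans (S30.pr_eq_zero h3 v h3')

/-- the algebra `B16` is not special -/
theorem not_special_B16 (F : Type v) (K : Type u) [Field F] [Field K] [Algebra F K]
    (h3 : (3 : K) = 0) : ¬ IsSpecial.{v, u, w} F (B16 K) := by
  rintro ⟨A, _, _, _, _, φ, hinj, hmul⟩
  have h3F : (3 : F) = 0 := by
    apply (algebraMap F K).injective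
    rw [map_zero, map_ofNat]
    exact h3
  have h2F : (2 : F) ≠ 0 := by
    intro h
    have : (1 : F) = 0 := by linear_combination h3F - h
    exact one_ne_zero this
  generalize ht : (2 : F)⁻¹ = t at hmul
  have half : ∀ u : A, t • (u + u) = u := by
    intro u
    rw [← two_smul F u, smul_smul, ← ht, inv_mul_cancel₀ h2F, one_smul]
  let x : B16 K := ⟨0, 0, 1, 0, 0, 0, 0, 0, 0, 0, 0, 0, 0, 0, 0, 0⟩
  let y : B16 K := ⟨0, 1, 0, 0, 0, 0, 0, 0, 0, 0, 0, 0, 0, 0, 0, 0⟩
  let z : B16 K := ⟨1, 0, 0, 0, 0, 0, 0, 0, 0, 0, 0, 0, 0, 0, 0, 0⟩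
  have hxy : x * y = 0 := by ext <;> simp [x, y]
  -- the element that vanishes in every special algebra with `x y = 0`
  have hw : φ (x * x * y * y * z + y * z * (x * x * y) - x * x * y * z * y
      - ((2 : F) • (y * (y * (x * x))) - y * y * (x * x)) * z) = 0 := by
    have hPQ : φ y * φ x = -(φ x * φ y) := by
      have h := hmul x y
      rw [hxy, map_zero] at h
      have h' : φ x * φ y + φ y * φ x = 0 := by
        have := congrArg (fun u => (2 : F) • u) h
        simp only [smul_zero, smul_smul, ← ht, mul_inv_cancel₀ h2F, one_smul] at this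
        exact this.symm
      exact eq_neg_of_add_eq_zero_right h'
    generalize hP : φ x = P at hPQ
    generalize hQ : φ y = Q at hPQ
    generalize hR : φ z = R
    have hQD : Q * (P * P) = P * P * Q := by
      rw [← mul_assoc, hPQ, neg_mul, mul_assoc, hPQ, mul_neg, neg_neg, mul_assoc]
    have e_xx : φ (x * x) = P * P := by rw [hmul, hP, half]
    generalize hD : P * P = D at hQD e_xx
    have e_a : φ (x * x * y) = D * Q := by rw [hmul, e_xx, hQ, hQD, half]
    have hQDQ : Q * (D * Q) = D * Q * Q := by rw [← mul_assoc, hQD]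
    have e_ay : φ (x * x * y * y) = D * Q * Q := by rw [hmul, e_a, hQ, hQDQ, half]
    have e_yz : φ (y * z) = t • (Q * R + R * Q) := by rw [hmul, hQ, hR]
    have e_az : φ (x * x * y * z) = t • (D * Q * R + R * (D * Q)) := by rw [hmul, e_a, hR]
    have e_yxx : φ (y * (x * x)) = D * Q := by rw [hmul, e_xx, hQ, hQD, half]
    have e_yyxx : φ (y * (y * (x * x))) = D * Q * Q := by rw [hmul, e_yxx, hQ, hQDQ, half]
    have e_yy : φ (y * y) = Q * Q := by rw [hmul, hQ, half]
    have hQQD : Q * Q * D = D * Q * Q := by rw [mul_assoc, hQD, hQDQ]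
    have e_yyxx' : φ (y * y * (x * x)) = D * Q * Q := by
      rw [hmul, e_xx, e_yy, hQQD, mul_assoc D Q Q, half]
    have e1 : φ (y * z * (x * x * y)) = φ (x * x * y * z * y) := by
      rw [hmul (y * z), hmul (x * x * y * z), e_yz, e_az, e_a, hQ]
      simp only [smul_mul_assoc, mul_smul_comm]
      rw [← smul_add, ← smul_add]
      congr 2
      have h1 : R * Q * (D * Q) = R * (D * Q) * Q := by rw [mul_assoc, hQDQ, ← mul_assoc]
      have h2 : Q * (D * Q * R) = D * Q * (Q * R) := by rw [← mul_assoc, hQDQ, mul_assoc]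
      simp only [mul_add, add_mul, h1, h2]
      have h3 : D * Q * R * Q = D * Q * (R * Q) := by rw [mul_assoc]
      have h4 : Q * R * (D * Q) = Q * (R * (D * Q)) := by rw [mul_assoc]
      rw [h3, h4]
      abel
    have e2 : φ (((2 : F) • (y * (y * (x * x))) - y * y * (x * x)) * z) =
        φ (x * x * y * y * z) := by
      rw [hmul, hmul (x * x * y * y), map_sub, map_smul, e_yyxx, e_yyxx', e_ay]
      have : (2 : F) • (D * Q * Q) - D * Q * Q = D * Q * Q := by
        rw [two_smul, add_sub_cancel_right]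
      rw [this]
    rw [map_sub, map_sub, map_add, e1, e2]
    abel
  have h0 := hinj (hw.trans (map_zero φ).symm)
  have h15 := congrArg B16.b15 h0
  simp [x, y, z, Algebra.smul_def, sub_eq_add_neg] at h15
  exact one_ne_zero (show (1 : K) = 0 by linear_combination h3 + h15)

/-- two orthogonal anisotropic vectors give an embedding of the three-dimensional algebra -/
theorem satisfies_J2 {F : Type u} {V : Type v} [Field F] [AddCommGroup V] [Module F V]
    (f : LinearMap.BilinForm F V) (hf : f.IsSymm) (e₁ e₂ : V) (h12 : f e₁ e₂ = 0)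
    (h1 : f e₁ e₁ ≠ 0) (h2 : f e₂ e₂ ≠ 0) :
    SatisfiesIdentitiesOf F (JordanForm F V f) (J2 F (f e₁ e₁) (f e₂ e₂)) := by
  have h21 : f e₂ e₁ = 0 := by rw [← h12]; exact hf.eq e₂ e₁
  let φ : J2 F (f e₁ e₁) (f e₂ e₂) →ₙₐ[F] JordanForm F V f :=
    { toFun := fun x => ⟨x.a, x.b • e₁ + x.c • e₂⟩
      map_smul' := fun r x => by ext <;> simp [mul_smul]
      map_zero' := by ext <;> simp
      map_add' := fun x y => by
        ext
        · simp
        · simp only [J2.add_b, J2.add_c, JordanForm.add_vector]; module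
      map_mul' := fun x y => by
        ext
        · simp only [J2.mul_a, JordanForm.mul_scalar, map_add, map_smul, LinearMap.add_apply,
            LinearMap.smul_apply, smul_eq_mul, h12, h21, Algebra.algebraMap_self, RingHom.id_apply]
          ring
        · simp only [J2.mul_b, J2.mul_c, JordanForm.mul_vector]; module }
  apply SatisfiesIdentitiesOf.of_injective φ
  intro x y hxy
  have ha : x.a = y.a := (congrArg JordanForm.scalar hxy : (φ x).scalar = (φ y).scalar)
  have hb : x.b • e₁ + x.c • e₂ = y.b • e₁ + y.c • e₂ :=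
    (congrArg JordanForm.vector hxy : (φ x).vector = (φ y).vector)
  have hb1 := congrArg (fun u => f e₁ u) hb
  have hb2 := congrArg (fun u => f e₂ u) hb
  simp only [map_add, map_smul, smul_eq_mul, h12, h21, mul_zero, add_zero, zero_add] at hb1 hb2
  exact J2.ext ha (mul_right_cancel₀ h1 hb1) (mul_right_cancel₀ h2 hb2)

/-- a bilinear form that is nondegenerate on a plane has orthogonal anisotropic vectors -/
theorem exists_orthogonal {F : Type u} {V : Type v} [Field F] [AddCommGroup V] [Module F V]
    (f : LinearMap.BilinForm F V) (hf : f.IsSymm) (h2F : (2 : F) ≠ 0)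
    (h : ∃ v w : V, f v v * f w w ≠ f v w * f v w) :
    ∃ e₁ e₂ : V, f e₁ e₂ = 0 ∧ f e₁ e₁ ≠ 0 ∧ f e₂ e₂ ≠ 0 := by
  have main : ∀ v w : V, f v v * f w w ≠ f v w * f v w → f v v ≠ 0 →
      ∃ e₁ e₂ : V, f e₁ e₂ = 0 ∧ f e₁ e₁ ≠ 0 ∧ f e₂ e₂ ≠ 0 := by
    intro v w hvw hv
    have hs : f w v = f v w := hf.eq w v
    refine ⟨v, f v v • w - f v w • v, ?_, hv, ?_⟩
    · simp only [map_sub, map_smul, smul_eq_mul]; ring
    · simp only [map_sub, map_smul, smul_eq_mul, LinearMap.sub_apply, LinearMap.smul_apply, hs]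
      intro h0
      have : f v v * (f v v * f w w - f v w * f v w) = 0 := by linear_combination h0
      rcases mul_eq_zero.1 this with h1 | h1
      · exact hv h1
      · exact hvw (sub_eq_zero.1 h1)
  obtain ⟨v, w, hvw⟩ := h
  have hs : f w v = f v w := hf.eq w v
  by_cases hv : f v v = 0
  · by_cases hw : f w w = 0
    · have hne : f v w ≠ 0 := by
        intro h0
        rw [hv, h0] at hvw
        simp at hvw
      refine ⟨v + w, v - w, ?_, ?_, ?_⟩
      · simp only [map_add, map_sub, LinearMap.add_apply, hv, hw, hs]; ring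
      · simp only [map_add, LinearMap.add_apply, hv, hw, hs]
        intro h0
        have : (2 : F) * f v w = 0 := by linear_combination h0
        rcases mul_eq_zero.1 this with h1 | h1
        · exact h2F h1
        · exact hne h1
      · simp only [map_sub, LinearMap.sub_apply, hv, hw, hs]
        intro h0
        have : (2 : F) * f v w = 0 := by linear_combination -h0
        rcases mul_eq_zero.1 this with h1 | h1
        · exact h2F h1
        · exact hne h1
    · apply main w v _ hw
      rw [hs, mul_comm]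
      exact hvw
  · exact main v w hvw hv

/-- the Jordan identity holds in `J(V, f)` and so in each algebra satisfying its identities -/
theorem isCommJordan_of_satisfies {F : Type u} {V : Type v} [Field F] [AddCommGroup V]
    [Module F V] (f : LinearMap.BilinForm F V) (hf : f.IsSymm) (B : Type w)
    [NonUnitalNonAssocCommRing B] [Module F B] [IsScalarTower F B B] [SMulCommClass F B B]
    (h : SatisfiesIdentitiesOf F (JordanForm F V f) B) : IsCommJordan B := by
  let X : ℕ → FreeNonUnitalNonAssocAlgebra F ℕ := FreeNonUnitalNonAssocAlgebra.of F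
  have key := h (X 0 * X 1 * (X 0 * X 0) - X 0 * (X 1 * (X 0 * X 0))) (by
    intro r
    simp only [map_sub, map_mul, X, FreeNonUnitalNonAssocAlgebra.lift_of_apply]
    rw [sub_eq_zero]
    generalize r 0 = a
    generalize r 1 = b
    have hs : f b.vector a.vector = f a.vector b.vector := hf.eq b.vector a.vector
    ext
    · simp only [JordanForm.mul_scalar, JordanForm.mul_vector, map_add, map_smul,
        LinearMap.add_apply, LinearMap.smul_apply, smul_eq_mul, hs]
      ring
    · simp only [JordanForm.mul_scalar, JordanForm.mul_vector, map_add, map_smul,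
        LinearMap.add_apply, LinearMap.smul_apply, smul_eq_mul, hs]
      module)
  constructor
  intro a b
  have := key (fun n => if n = 0 then a else b)
  simpa [X, sub_eq_zero] using this

/-- extension of scalars on `B16` -/
def B16.extend (F : Type u) (K : Type v) [Field F] [Field K] [Algebra F K] :
    B16 F →ₙₐ[F] B16 K where
  toFun x := ⟨algebraMap F K x.b0, algebraMap F K x.b1, algebraMap F K x.b2, algebraMap F K x.b3,
    algebraMap F K x.b4, algebraMap F K x.b5, algebraMap F K x.b6, algebraMap F K x.b7,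
    algebraMap F K x.b8, algebraMap F K x.b9, algebraMap F K x.b10, algebraMap F K x.b11,
    algebraMap F K x.b12, algebraMap F K x.b13, algebraMap F K x.b14, algebraMap F K x.b15⟩
  map_smul' r x := by ext <;> simp [Algebra.smul_def]
  map_zero' := by ext <;> simp
  map_add' x y := by ext <;> simp
  map_mul' x y := by ext <;> simp

theorem B16.extend_injective (F : Type u) (K : Type v) [Field F] [Field K] [Algebra F K] :
    Function.Injective (B16.extend F K) := by
  intro x y h
  have hi := (algebraMap F K).injective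
  exact B16.ext (hi (congrArg B16.b0 h)) (hi (congrArg B16.b1 h)) (hi (congrArg B16.b2 h))
    (hi (congrArg B16.b3 h)) (hi (congrArg B16.b4 h)) (hi (congrArg B16.b5 h))
    (hi (congrArg B16.b6 h)) (hi (congrArg B16.b7 h)) (hi (congrArg B16.b8 h))
    (hi (congrArg B16.b9 h)) (hi (congrArg B16.b10 h)) (hi (congrArg B16.b11 h))
    (hi (congrArg B16.b12 h)) (hi (congrArg B16.b13 h)) (hi (congrArg B16.b14 h))
    (hi (congrArg B16.b15 h))

/-- `B16` has finite dimension -/
theorem B16.finite (F : Type u) [Field F] : Module.Finite F (B16 F) := by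
  let φ : B16 F →ₗ[F] (Fin 16 → F) :=
    { toFun := fun x => ![x.b0, x.b1, x.b2, x.b3, x.b4, x.b5, x.b6, x.b7, x.b8, x.b9, x.b10, x.b11,
        x.b12, x.b13, x.b14, x.b15]
      map_add' := fun x y => by simp
      map_smul' := fun r x => by simp }
  apply Module.Finite.of_injective φ
  intro x y h
  have h' : ∀ i, φ x i = φ y i := fun i => congrFun h i
  exact B16.ext (h' 0) (h' 1) (h' 2) (h' 3) (h' 4) (h' 5) (h' 6) (h' 7) (h' 8) (h' 9) (h' 10)
    (h' 11) (h' 12) (h' 13) (h' 14) (h' 15)

/-- the main theorem -/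
theorem main (F : Type u) [Field F] [Infinite F] [CharP F 3] (V : Type v) [AddCommGroup V]
    [Module F V] (f : LinearMap.BilinForm F V) (hf : f.IsSymm)
    (hr : ∃ v w : V, f v v * f w w ≠ f v w * f v w) :
    ∃ (B : Type u) (_ : NonUnitalNonAssocCommRing B) (_ : Module F B) (_ : IsScalarTower F B B)
      (_ : SMulCommClass F B B), Module.Finite F B ∧ IsCommJordan B ∧
        SatisfiesIdentitiesOf F (JordanForm F V f) B ∧ ¬ IsSpecial.{u, u, w} F B := by
  have h3 : (3 : F) = 0 := CharP.cast_eq_zero F 3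
  have h2 : (2 : F) ≠ 0 := by
    intro h
    have : (1 : F) = 0 := by linear_combination h3 - h
    exact one_ne_zero this
  obtain ⟨e₁, e₂, h12, h11, h22⟩ := exists_orthogonal f hf h2 hr
  let K := AlgebraicClosure F
  have h3K : (3 : K) = 0 := by
    have := congrArg (algebraMap F K) h3
    rwa [map_zero, map_ofNat] at this
  obtain ⟨s, hs⟩ :=
    IsAlgClosed.exists_pow_nat_eq ((algebraMap F K (f e₁ e₁))⁻¹) (n := 2) (by norm_num)
  obtain ⟨t, ht⟩ :=
    IsAlgClosed.exists_pow_nat_eq ((algebraMap F K (f e₂ e₂))⁻¹) (n := 2) (by norm_num)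
  have hp : algebraMap F K (f e₁ e₁) ≠ 0 := by
    rw [Ne, map_eq_zero]; exact h11
  have hq : algebraMap F K (f e₂ e₂) ≠ 0 := by
    rw [Ne, map_eq_zero]; exact h22
  have hps : algebraMap F K (f e₁ e₁) * (s * s) = 1 := by
    rw [← sq, hs, mul_inv_cancel₀ hp]
  have hqt : algebraMap F K (f e₂ e₂) * (t * t) = 1 := by
    rw [← sq, ht, mul_inv_cancel₀ hq]
  have a1 := satisfies_J2 f hf e₁ e₂ h12 h11 h22
  have a2 := SatisfiesIdentitiesOf.extend (Coef K) (f e₁ e₁) (f e₂ e₂)
  have a3 : SatisfiesIdentitiesOf F (J2 (Coef K) (f e₁ e₁) (f e₂ e₂))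
      (J2 (Coef K) (1 : F) (1 : F)) := by
    have hi : ∀ c : F, algebraMap F (Coef K) c = algebraMap K (Coef K) (algebraMap F K c) :=
      fun c => rfl
    have hs0 : s ≠ 0 := by
      rintro rfl
      simp at hps
    have ht0 : t ≠ 0 := by
      rintro rfl
      simp at hqt
    apply SatisfiesIdentitiesOf.rescale (Coef K) (f e₁ e₁) (f e₂ e₂)
      (algebraMap K (Coef K) s) (algebraMap K (Coef K) t) (algebraMap K (Coef K) s⁻¹)
      (algebraMap K (Coef K) t⁻¹)
    · rw [hi, ← map_mul, ← map_mul, hps, map_one]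
    · rw [hi, ← map_mul, ← map_mul, hqt, map_one]
    · rw [← map_mul, inv_mul_cancel₀ hs0, map_one]
    · rw [← map_mul, inv_mul_cancel₀ ht0, map_one]
  have a4 := satisfies_B16 F K h3K
  have a5 : SatisfiesIdentitiesOf F (B16 K) (B16 F) :=
    SatisfiesIdentitiesOf.of_injective (B16.extend F K) (B16.extend_injective F K)
  have a : SatisfiesIdentitiesOf F (JordanForm F V f) (B16 F) :=
    (((a1.trans a2).trans a3).trans a4).trans a5
  exact ⟨B16 F, inferInstance, inferInstance, inferInstance, inferInstance, B16.finite F,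
    isCommJordan_of_satisfies f hf _ a, a, not_special_B16 F F h3⟩

end Pool.Agent.H81.JV
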