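import Mathlib.Algebra.Algebra.Basic
import Mathlib.Tactic.Ring
import Mathlib.Algebra.Algebra.Defs

/-! # Dual numbers and truncated polynomials over a commutative ring -/

namespace Pool.Agent.H81.JV

universe u v w

/-- dual numbers `a + b e` with `e ^ 2 = 0` -/
@[ext]
structure Dual (R : Type u) where
  a : R
  b : R

namespace Dual

variable {R : Type u} [CommRing R]

instance : Zero (Dual R) := ⟨⟨0, 0⟩⟩
instance : One (Dual R) := ⟨⟨1, 0⟩⟩
instance : Add (Dual R) := ⟨fun x y => ⟨x.a + y.a, x.b + y.b⟩⟩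
instance : Neg (Dual R) := ⟨fun x => ⟨-x.a, -x.b⟩⟩
instance : Mul (Dual R) := ⟨fun x y => ⟨x.a * y.a, x.a * y.b + x.b * y.a⟩⟩

@[simp] theorem zero_a : (0 : Dual R).a = 0 := rfl
@[simp] theorem zero_b : (0 : Dual R).b = 0 := rfl
@[simp] theorem one_a : (1 : Dual R).a = 1 := rfl
@[simp] theorem one_b : (1 : Dual R).b = 0 := rfl
@[simp] theorem add_a (x y : Dual R) : (x + y).a = x.a + y.a := rfl
@[simp] theorem add_b (x y : Dual R) : (x + y).b = x.b + y.b := rfl
@[simp] theorem neg_a (x : Dual R) : (-x).a = -x.a := rfl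
@[simp] theorem neg_b (x : Dual R) : (-x).b = -x.b := rfl
@[simp] theorem mul_a (x y : Dual R) : (x * y).a = x.a * y.a := rfl
@[simp] theorem mul_b (x y : Dual R) : (x * y).b = x.a * y.b + x.b * y.a := rfl

instance : CommRing (Dual R) where
  add_assoc x y z := by ext <;> simp <;> ring
  zero_add x := by ext <;> simp
  add_zero x := by ext <;> simp
  add_comm x y := by ext <;> simp <;> ring
  neg_add_cancel x := by ext <;> simp
  nsmul := nsmulRec
  zsmul := zsmulRec
  mul_assoc x y z := by ext <;> simp <;> ring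
  mul_comm x y := by ext <;> simp <;> ring
  one_mul x := by ext <;> simp
  mul_one x := by ext <;> simp
  zero_mul x := by ext <;> simp
  mul_zero x := by ext <;> simp
  left_distrib x y z := by ext <;> simp <;> ring
  right_distrib x y z := by ext <;> simp <;> ring

variable {F : Type v} [Field F] [Algebra F R]

instance : SMul F (Dual R) := ⟨fun c x => ⟨c • x.a, c • x.b⟩⟩

@[simp] theorem smul_a (c : F) (x : Dual R) : (c • x).a = c • x.a := rfl
@[simp] theorem smul_b (c : F) (x : Dual R) : (c • x).b = c • x.b := rfl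

instance : Algebra F (Dual R) where
  algebraMap :=
    { toFun := fun c => ⟨algebraMap F R c, 0⟩
      map_one' := by ext <;> simp
      map_zero' := by ext <;> simp
      map_add' := fun x y => by ext <;> simp
      map_mul' := fun x y => by ext <;> simp }
  commutes' c x := by ext <;> simp [mul_comm]
  smul_def' c x := by ext <;> simp [Algebra.smul_def]

end Dual

/-- truncated polynomials `a + b s + c s ^ 2` with `s ^ 3 = 0` -/
@[ext]
structure T3 (R : Type u) where
  a : R
  b : R
  c : R

namespace T3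

variable {R : Type u} [CommRing R]

instance : Zero (T3 R) := ⟨⟨0, 0, 0⟩⟩
instance : One (T3 R) := ⟨⟨1, 0, 0⟩⟩
instance : Add (T3 R) := ⟨fun x y => ⟨x.a + y.a, x.b + y.b, x.c + y.c⟩⟩
instance : Neg (T3 R) := ⟨fun x => ⟨-x.a, -x.b, -x.c⟩⟩
instance : Mul (T3 R) :=
  ⟨fun x y => ⟨x.a * y.a, x.a * y.b + x.b * y.a, x.a * y.c + x.b * y.b + x.c * y.a⟩⟩

@[simp] theorem zero_a : (0 : T3 R).a = 0 := rfl
@[simp] theorem zero_b : (0 : T3 R).b = 0 := rfl
@[simp] theorem zero_c : (0 : T3 R).c = 0 := rfl
@[simp] theorem one_a : (1 : T3 R).a = 1 := rfl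
@[simp] theorem one_b : (1 : T3 R).b = 0 := rfl
@[simp] theorem one_c : (1 : T3 R).c = 0 := rfl
@[simp] theorem add_a (x y : T3 R) : (x + y).a = x.a + y.a := rfl
@[simp] theorem add_b (x y : T3 R) : (x + y).b = x.b + y.b := rfl
@[simp] theorem add_c (x y : T3 R) : (x + y).c = x.c + y.c := rfl
@[simp] theorem neg_a (x : T3 R) : (-x).a = -x.a := rfl
@[simp] theorem neg_b (x : T3 R) : (-x).b = -x.b := rfl
@[simp] theorem neg_c (x : T3 R) : (-x).c = -x.c := rfl
@[simp] theorem mul_a (x y : T3 R) : (x * y).a = x.a * y.a := rfl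
@[simp] theorem mul_b (x y : T3 R) : (x * y).b = x.a * y.b + x.b * y.a := rfl
@[simp] theorem mul_c (x y : T3 R) : (x * y).c = x.a * y.c + x.b * y.b + x.c * y.a := rfl

instance : CommRing (T3 R) where
  add_assoc x y z := by ext <;> simp <;> ring
  zero_add x := by ext <;> simp
  add_zero x := by ext <;> simp
  add_comm x y := by ext <;> simp <;> ring
  neg_add_cancel x := by ext <;> simp
  nsmul := nsmulRec
  zsmul := zsmulRec
  mul_assoc x y z := by ext <;> simp <;> ring
  mul_comm x y := by ext <;> simp <;> ring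
  one_mul x := by ext <;> simp
  mul_one x := by ext <;> simp
  zero_mul x := by ext <;> simp
  mul_zero x := by ext <;> simp
  left_distrib x y z := by ext <;> simp <;> ring
  right_distrib x y z := by ext <;> simp <;> ring

variable {F : Type v} [Field F] [Algebra F R]

instance : SMul F (T3 R) := ⟨fun c x => ⟨c • x.a, c • x.b, c • x.c⟩⟩

@[simp] theorem smul_a (c : F) (x : T3 R) : (c • x).a = c • x.a := rfl
@[simp] theorem smul_b (c : F) (x : T3 R) : (c • x).b = c • x.b := rfl
@[simp] theorem smul_c (c : F) (x : T3 R) : (c • x).c = c • x.c := rfl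

instance : Algebra F (T3 R) where
  algebraMap :=
    { toFun := fun c => ⟨algebraMap F R c, 0, 0⟩
      map_one' := by ext <;> simp
      map_zero' := by ext <;> simp
      map_add' := fun x y => by ext <;> simp
      map_mul' := fun x y => by ext <;> simp }
  commutes' c x := by ext <;> simp [mul_comm]
  smul_def' c x := by ext <;> simp [Algebra.smul_def]

end T3

/-- the coefficient ring of the cover: polynomials in `s, e1, e2, z` with
`s ^ 3 = e1 ^ 2 = e2 ^ 2 = z ^ 2 = 0` -/
abbrev Coef (K : Type u) : Type u := Dual (Dual (Dual (T3 K)))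

end Pool.Agent.H81.JV
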