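import Pool.Agent.H81.JV.Defs
import Pool.Agent.H81.JV.Rings
import Mathlib.Algebra.MvPolynomial.Funext
import Mathlib.FieldTheory.IsAlgClosed.AlgebraicClosure
import Mathlib.Tactic.LinearCombination
import Mathlib.Tactic.FieldSimp

/-! # Identities pass to extensions of scalars -/

namespace Pool.Agent.H81.JV

universe u v w

open FreeNonUnitalNonAssocAlgebra (lift)

set_option linter.unusedSectionVars false

/-- `J(V, f)` over the `F`-algebra `R` for `V` of rank two with `f` diagonal with entries `p, q` -/
@[ext]
structure J2 {F : Type u} (R : Type v) (p q : F) where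
  a : R
  b : R
  c : R

namespace J2

variable {F : Type u} [Field F] {R : Type v} [CommRing R] [Algebra F R] {p q : F}

instance : Zero (J2 R p q) := ⟨⟨0, 0, 0⟩⟩
instance : Add (J2 R p q) := ⟨fun x y => ⟨x.a + y.a, x.b + y.b, x.c + y.c⟩⟩
instance : Neg (J2 R p q) := ⟨fun x => ⟨-x.a, -x.b, -x.c⟩⟩
instance : SMul F (J2 R p q) := ⟨fun r x => ⟨r • x.a, r • x.b, r • x.c⟩⟩
instance : Mul (J2 R p q) :=
  ⟨fun x y => ⟨x.a * y.a + algebraMap F R p * (x.b * y.b) + algebraMap F R q * (x.c * y.c),
    x.a * y.b + x.b * y.a, x.a * y.c + x.c * y.a⟩⟩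

@[simp] theorem zero_a : (0 : J2 R p q).a = 0 := rfl
@[simp] theorem zero_b : (0 : J2 R p q).b = 0 := rfl
@[simp] theorem zero_c : (0 : J2 R p q).c = 0 := rfl
@[simp] theorem add_a (x y : J2 R p q) : (x + y).a = x.a + y.a := rfl
@[simp] theorem add_b (x y : J2 R p q) : (x + y).b = x.b + y.b := rfl
@[simp] theorem add_c (x y : J2 R p q) : (x + y).c = x.c + y.c := rfl
@[simp] theorem neg_a (x : J2 R p q) : (-x).a = -x.a := rfl
@[simp] theorem neg_b (x : J2 R p q) : (-x).b = -x.b := rfl
@[simp] theorem neg_c (x : J2 R p q) : (-x).c = -x.c := rfl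
@[simp] theorem smul_a (r : F) (x : J2 R p q) : (r • x).a = r • x.a := rfl
@[simp] theorem smul_b (r : F) (x : J2 R p q) : (r • x).b = r • x.b := rfl
@[simp] theorem smul_c (r : F) (x : J2 R p q) : (r • x).c = r • x.c := rfl
@[simp] theorem mul_a (x y : J2 R p q) : (x * y).a =
    x.a * y.a + algebraMap F R p * (x.b * y.b) + algebraMap F R q * (x.c * y.c) := rfl
@[simp] theorem mul_b (x y : J2 R p q) : (x * y).b = x.a * y.b + x.b * y.a := rfl
@[simp] theorem mul_c (x y : J2 R p q) : (x * y).c = x.a * y.c + x.c * y.a := rfl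

instance : AddCommGroup (J2 R p q) where
  add_assoc x y z := by ext <;> simp [add_assoc]
  zero_add x := by ext <;> simp
  add_zero x := by ext <;> simp
  add_comm x y := by ext <;> simp [add_comm]
  neg_add_cancel x := by ext <;> simp
  nsmul := nsmulRec
  zsmul := zsmulRec

instance : NonUnitalNonAssocRing (J2 R p q) where
  left_distrib x y z := by ext <;> simp <;> ring
  right_distrib x y z := by ext <;> simp <;> ring
  zero_mul x := by ext <;> simp
  mul_zero x := by ext <;> simp

instance : Module F (J2 R p q) where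
  one_smul x := by ext <;> simp
  mul_smul a b x := by ext <;> simp [mul_smul]
  smul_zero a := by ext <;> simp
  smul_add a x y := by ext <;> simp
  add_smul a b x := by ext <;> simp [add_smul]
  zero_smul x := by ext <;> simp

instance : IsScalarTower F (J2 R p q) (J2 R p q) where
  smul_assoc a x y := by
    ext <;> simp only [smul_eq_mul, mul_a, mul_b, mul_c, smul_a, smul_b, smul_c,
      Algebra.smul_def] <;> ring

instance : SMulCommClass F (J2 R p q) (J2 R p q) where
  smul_comm a x y := by
    ext <;> simp only [smul_eq_mul, mul_a, mul_b, mul_c, smul_a, smul_b, smul_c,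
      Algebra.smul_def] <;> ring

/-- functoriality in the ring -/
def map {R' : Type w} [CommRing R'] [Algebra F R'] (φ : R →ₐ[F] R') :
    J2 R p q →ₙₐ[F] J2 R' p q where
  toFun x := ⟨φ x.a, φ x.b, φ x.c⟩
  map_smul' r x := by ext <;> simp
  map_zero' := by ext <;> simp
  map_add' x y := by ext <;> simp
  map_mul' x y := by ext <;> simp

@[simp] theorem map_a {R' : Type w} [CommRing R'] [Algebra F R'] (φ : R →ₐ[F] R')
    (x : J2 R p q) : (map φ x).a = φ x.a := rfl
@[simp] theorem map_b {R' : Type w} [CommRing R'] [Algebra F R'] (φ : R →ₐ[F] R')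
    (x : J2 R p q) : (map φ x).b = φ x.b := rfl
@[simp] theorem map_c {R' : Type w} [CommRing R'] [Algebra F R'] (φ : R →ₐ[F] R')
    (x : J2 R p q) : (map φ x).c = φ x.c := rfl

end J2

/-- a homomorphism maps values of a polynomial to values -/
theorem map_lift {F : Type u} [Field F] {A : Type v} {B : Type w}
    [NonUnitalNonAssocRing A] [Module F A] [IsScalarTower F A A] [SMulCommClass F A A]
    [NonUnitalNonAssocRing B] [Module F B] [IsScalarTower F B B] [SMulCommClass F B B]
    (φ : A →ₙₐ[F] B) (r : ℕ → A) (g : FreeNonUnitalNonAssocAlgebra F ℕ) :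
    φ (lift F r g) = lift F (fun n => φ (r n)) g := by
  have h : φ.comp (lift F r) = lift F (fun n => φ (r n)) := by
    apply FreeNonUnitalNonAssocAlgebra.hom_ext
    intro n
    simp
  exact DFunLike.congr_fun h g

/-- identities pass to subalgebras -/
theorem SatisfiesIdentitiesOf.of_injective {F : Type u} [Field F] {A : Type v} {B : Type w}
    [NonUnitalNonAssocRing A] [Module F A] [IsScalarTower F A A] [SMulCommClass F A A]
    [NonUnitalNonAssocRing B] [Module F B] [IsScalarTower F B B] [SMulCommClass F B B]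
    (φ : A →ₙₐ[F] B) (hφ : Function.Injective φ) : SatisfiesIdentitiesOf F B A := by
  intro g hg r
  apply hφ
  rw [map_lift, hg, map_zero]

theorem SatisfiesIdentitiesOf.trans {F : Type u} [Field F] {A : Type v} {B : Type w} {C : Type*}
    [NonUnitalNonAssocRing A] [Module F A] [IsScalarTower F A A] [SMulCommClass F A A]
    [NonUnitalNonAssocRing B] [Module F B] [IsScalarTower F B B] [SMulCommClass F B B]
    [NonUnitalNonAssocRing C] [Module F C] [IsScalarTower F C C] [SMulCommClass F C C]
    (h1 : SatisfiesIdentitiesOf F A B) (h2 : SatisfiesIdentitiesOf F B C) :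
    SatisfiesIdentitiesOf F A C := fun g hg => h2 g (h1 g hg)

/-- identities pass to extensions of scalars if the field is infinite -/
theorem SatisfiesIdentitiesOf.extend {F : Type u} [Field F] [Infinite F] (R : Type v) [CommRing R]
    [Algebra F R] (p q : F) : SatisfiesIdentitiesOf F (J2 F p q) (J2 R p q) := by
  intro g hg r
  let P := MvPolynomial (ℕ × Fin 3) F
  let ξ : ℕ → J2 P p q := fun n =>
    ⟨MvPolynomial.X (n, 0), MvPolynomial.X (n, 1), MvPolynomial.X (n, 2)⟩
  have key : lift F ξ g = 0 := by
    have h : ∀ x : ℕ × Fin 3 → F, J2.map (MvPolynomial.aeval x) (lift F ξ g) = 0 := by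
      intro x
      rw [map_lift, hg]
    ext1
    · apply MvPolynomial.funext
      intro x
      have := congrArg J2.a (h x)
      simpa [MvPolynomial.coe_aeval_eq_eval] using this
    · apply MvPolynomial.funext
      intro x
      have := congrArg J2.b (h x)
      simpa [MvPolynomial.coe_aeval_eq_eval] using this
    · apply MvPolynomial.funext
      intro x
      have := congrArg J2.c (h x)
      simpa [MvPolynomial.coe_aeval_eq_eval] using this
  let x : ℕ × Fin 3 → R := fun n => ![(r n.1).a, (r n.1).b, (r n.1).c] n.2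
  have h2 := map_lift (J2.map (p := p) (q := q) (MvPolynomial.aeval x : P →ₐ[F] R)) ξ g
  rw [key, map_zero] at h2
  have h3 : (fun n => J2.map (p := p) (q := q) (MvPolynomial.aeval x : P →ₐ[F] R) (ξ n)) = r := by
    funext n
    ext <;> simp [ξ, x]
  rw [h3] at h2
  exact h2.symm

/-- rescaling the basis -/
theorem SatisfiesIdentitiesOf.rescale {F : Type u} [Field F] (R : Type v) [CommRing R]
    [Algebra F R] (p q : F) (s t s' t' : R) (hs : algebraMap F R p * (s * s) = 1)
    (ht : algebraMap F R q * (t * t) = 1) (hs' : s' * s = 1) (ht' : t' * t = 1) :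
    SatisfiesIdentitiesOf F (J2 R p q) (J2 R (1 : F) (1 : F)) := by
  let φ : J2 R (1 : F) (1 : F) →ₙₐ[F] J2 R p q :=
    { toFun := fun x => ⟨x.a, x.b * s, x.c * t⟩
      map_smul' := fun r x => by ext <;> simp
      map_zero' := by ext <;> simp
      map_add' := fun x y => by ext <;> simp [add_mul]
      map_mul' := fun x y => by
        ext
        · simp only [J2.mul_a, map_one, one_mul]
          linear_combination (-(x.b * y.b)) * hs + (-(x.c * y.c)) * ht
        · simp only [J2.mul_b]; ring
        · simp only [J2.mul_c]; ring }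
  apply SatisfiesIdentitiesOf.of_injective φ
  intro x y hxy
  have h1 : x.a = y.a := (congrArg J2.a hxy : (φ x).a = (φ y).a)
  have h2 : x.b * s = y.b * s := (congrArg J2.b hxy : (φ x).b = (φ y).b)
  have h3 : x.c * t = y.c * t := (congrArg J2.c hxy : (φ x).c = (φ y).c)
  ext
  · exact h1
  · linear_combination s' * h2 + (y.b - x.b) * hs'
  · linear_combination t' * h3 + (y.c - x.c) * ht'

end Pool.Agent.H81.JV
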